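import Pool.Agent.Work.MP_274aea_ag_Div.ScB

set_option autoImplicit false

open MvPolynomial Matrix Pool.Agent.GM16

namespace Pool.Agent.GMDiv

/-- The conclusion of the frozen statement. -/
def Chart (t : Par → ℂ) : Prop :=
  ∀ A : Matrix (Fin 2) (Fin 5) (MvPolynomial (Fin 6) ℂ),
    A = !![(1 : MvPolynomial (Fin 6) ℂ), 0, X 0, X 1, X 2; 0, 1, X 3, X 4, X 5] →
  ∀ J : Ideal (MvPolynomial (Fin 6) ℂ),
    J = Ideal.span
      {∑ s : Idx, C (t (Sum.inl s)) * (A 0 s.1.1 * A 1 s.1.2 - A 0 s.1.2 * A 1 s.1.1),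
       ∑ s : Idx, ∑ s' : Idx, C (t (Sum.inr (s, s'))) *
          (A 0 s.1.1 * A 1 s.1.2 - A 0 s.1.2 * A 1 s.1.1) *
          (A 0 s'.1.1 * A 1 s'.1.2 - A 0 s'.1.2 * A 1 s'.1.1)} →
    J.IsPrime ∧ Nonempty (FractionRing (MvPolynomial (Fin 6) ℂ ⧸ J) ≃ₐ[ℂ]
      FractionRing (MvPolynomial (Fin 4) ℂ))

theorem sc_transfer {t : Par → ℂ} {h c : ℂ} (hh : h ≠ 0) (hc : c ≠ 0) {L : Fin 10 → ℂ}
    {θ : Th → ℂ} (hH' : ∀ u v, Hf t (pl u v) = h * Hn θ (gp u v))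
    (hQ' : ∀ u v, Qf t (pl u v) (pl u v) =
      c * Qn θ (gp u v) (gp u v) + Hn θ (gp u v) * ∑ a, L a * gp u v a)
    (hs : SmoothN θ) (hp : (Jn θ).IsPrime)
    (hr : Nonempty (FractionRing (MvPolynomial (Fin 6) ℂ ⧸ Jn θ) ≃ₐ[ℂ]
      FractionRing (MvPolynomial (Fin 4) ℂ))) : IsSmoothGM t ∧ Chart t := by
  obtain ⟨G, hG⟩ := Reduce_G
  obtain ⟨E, hE⟩ : ∃ E : Idx → Fin 10 → ℂ, E = fun s => G fun j => if s = j then 1 else 0 := ⟨_, rfl⟩
  obtain ⟨d, hd⟩ : ∃ d, d = t + (-1 : ℂ) • Reduce_co h c L E θ := ⟨_, rfl⟩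
  have hd1 : ∀ u v, Hf d (pl u v) = 0 ∧ Qf d (pl u v) (pl u v) = 0 := fun u v => by
    rw [hd, hE, (Reduce_add _ _ _ _ (pl u v)).1, (Reduce_add _ _ _ _ _).2,
      (Reduce_co_eq _ _ _ _ _ _ (pl u v)).1, (Reduce_co_eq _ _ _ _ _ _ _).2, hG, hH', hQ']
    constructor <;> ring
  have ht : t = d + (1 : ℂ) • Reduce_co h c L E θ := by
    rw [hd, add_assoc, ← add_smul, neg_add_cancel, zero_smul, add_zero]
  have hH : ∀ p, Hf t p = Hf d p + h * Hn θ (G p) := fun p => by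
    rw [ht, hE, (Reduce_add _ _ _ _ p).1, (Reduce_co_eq _ _ _ _ _ _ p).1, one_mul]
  have hQ : ∀ p q, Qf t p q = Qf d p q + (c * Qn θ (G p) (G q) + Hn θ (G p) * ∑ a, L a * G q a) :=
    fun p q => by rw [ht, hE, (Reduce_add _ _ _ _ _).2, (Reduce_co_eq _ _ _ _ _ _ _).2, one_mul]
  refine ⟨fun u v huv h2 h3 a b h4 => ?_, fun A hA J hJ => ?_⟩
  · rw [hH'] at h2
    have h5 := (mul_eq_zero.1 h2).resolve_left hh
    rw [hQ', h5, zero_mul, add_zero] at h3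
    obtain ⟨h6, h7⟩ := hs u v huv h5 ((mul_eq_zero.1 h3).resolve_left hc)
      (a * h + b * ∑ a, L a * gp u v a) (b * c) fun u' v' => by
      have e1 : Hf d (pl u' v + pl u v') = 0 :=
        (map_add (Reduce_H d) _ _).trans (by
          change Hf d _ + Hf d _ = 0
          rw [(hd1 _ _).1, (hd1 _ _).1, add_zero])
      have e2 := h4 u' v'
      rw [hH, hQ, hQ, e1, map_add, hG, hG, hG, h5] at e2
      linear_combination e2 - b * Reduce_polar (fun u v => (hd1 u v).2) u v u' v'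
    have hb : b = 0 := (mul_eq_zero.1 h7).resolve_right hc
    rw [hb, zero_mul, add_zero] at h6
    exact ⟨(mul_eq_zero.1 h6).resolve_right hh, hb⟩
  · have hp' : ∀ (x : Fin 6 → ℂ) (s : Idx), eval x (A 0 s.1.1 * A 1 s.1.2 - A 0 s.1.2 * A 1 s.1.1) =
        pl ![1, 0, x 0, x 1, x 2] ![0, 1, x 3, x 4, x 5] s := fun x s => by
      have e0 : ∀ i, eval x (A 0 i) = ![1, 0, x 0, x 1, x 2] i := fun i => by
        fin_cases i <;> simp [hA]
      have e1 : ∀ i, eval x (A 1 i) = ![0, 1, x 3, x 4, x 5] i := fun i => by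
        fin_cases i <;> simp [hA]
      simp only [map_sub, map_mul, e0, e1, pl]
    have e1 : ∑ s : Idx, C (t (Sum.inl s)) * (A 0 s.1.1 * A 1 s.1.2 - A 0 s.1.2 * A 1 s.1.1) =
        C h * Hn (fun s => C (θ s)) (gch X) := MvPolynomial.funext fun x => by
      rw [map_sum, map_mul, map_Hn]
      simp only [map_mul (eval x) (C _), hp', eval_C, map_gch, eval_X]
      exact hH' _ _
    have e2 : ∑ s : Idx, ∑ s' : Idx, C (t (Sum.inr (s, s'))) *
          (A 0 s.1.1 * A 1 s.1.2 - A 0 s.1.2 * A 1 s.1.1) *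
          (A 0 s'.1.1 * A 1 s'.1.2 - A 0 s'.1.2 * A 1 s'.1.1) =
        C c * Qn (fun s => C (θ s)) (gch X) (gch X) +
          Hn (fun s => C (θ s)) (gch X) * ∑ a, C (L a) * gch X a := MvPolynomial.funext fun x => by
      rw [map_add, map_mul, map_mul, map_Hn, map_Qn]
      simp only [map_sum, map_mul (eval x) (C _), map_mul (eval x) (C _ * _), hp', eval_C, map_gch, eval_X]
      exact hQ' _ _
    have e3 : J = Jn θ := by
      rw [hJ, e1, e2, Jn]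
      generalize Hn (fun s => C (θ s)) (gch X) = H
      generalize Qn (fun s => C (θ s)) (gch X) (gch X) = Q
      generalize ∑ a, C (L a) * gch X a = M
      have u1 : (C h⁻¹ * C h : MvPolynomial (Fin 6) ℂ) = 1 := by rw [← C_mul, inv_mul_cancel₀ hh, C_1]
      have u2 : (C c⁻¹ * C c : MvPolynomial (Fin 6) ℂ) = 1 := by rw [← C_mul, inv_mul_cancel₀ hc, C_1]
      refine le_antisymm (Ideal.span_le.2 (Set.pair_subset ?_ ?_))
        (Ideal.span_le.2 (Set.pair_subset ?_ ?_)) <;> refine Ideal.mem_span_pair.2 ?_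
      · exact ⟨C h, 0, by ring⟩
      · exact ⟨M, C c, by ring⟩
      · exact ⟨C h⁻¹, 0, by linear_combination H * u1⟩
      · exact ⟨-(C c⁻¹ * M * C h⁻¹), C c⁻¹, by linear_combination Q * u2 - C c⁻¹ * M * H * u1⟩
    rw [e3]
    exact ⟨hp, hr⟩

/-- Coefficients of the forms that vanish on the scroll. -/
abbrev WI := Fin 4 ⊕ Unit ⊕ (Fin 4 × Fin 10)

def wh (w : WI → ℂ) : ℂ := w (Sum.inl 0)

def wn (w : WI → ℂ) (k : Fin 3) : ℂ := w (Sum.inl k.succ)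

def wc (w : WI → ℂ) : ℂ := w (Sum.inr (Sum.inl ()))

def wL (w : WI → ℂ) (a : Fin 10) : ℂ := w (Sum.inr (Sum.inr (0, a)))

def wl (w : WI → ℂ) (k : Fin 3) (a : Fin 10) : ℂ := w (Sum.inr (Sum.inr (k.succ, a)))

def linW (w : WI → ℂ) (g : Fin 10 → ℂ) : ℂ :=
  wh w * (g 1 - g 2) + wn w 0 * g 7 + wn w 1 * g 8 + wn w 2 * g 9

def quadW (w : WI → ℂ) (g : Fin 10 → ℂ) : ℂ :=
  wc w * (g 0 * g 3 - g 1 * g 2) + (g 1 - g 2) * ∑ i, wL w i * g i + g 7 * ∑ i, wl w 0 i * g i +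
    g 8 * ∑ i, wl w 1 i * g i + g 9 * ∑ i, wl w 2 i * g i

/-- The pairs of a parameter and a presentation of its forms. -/
def MW : Submodule ℂ ((Par → ℂ) × (WI → ℂ)) where
  carrier := {x | ∀ u v, Hf x.1 (pl u v) = linW x.2 (gp u v) ∧
    Qf x.1 (pl u v) (pl u v) = quadW x.2 (gp u v)}
  add_mem' {x y} hx hy u v := by
    have e := Reduce_add x.1 y.1 1 (pl u v) (pl u v)
    rw [one_smul] at e
    rw [Prod.fst_add, e.1, e.2, (hx u v).1, (hx u v).2, (hy u v).1, (hy u v).2]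
    simp only [linW, quadW, wh, wn, wc, wL, wl, Prod.snd_add, Pi.add_apply, Reduce_sum]
    constructor <;> ring
  zero_mem' u v := by simp [Hf, Qf, linW, quadW, wh, wn, wc, wL, wl]
  smul_mem' a x hx u v := by
    have e := Reduce_add 0 x.1 a (pl u v) (pl u v)
    rw [zero_add] at e
    rw [Prod.smul_fst, e.1, e.2, (hx u v).1, (hx u v).2]
    simp only [linW, quadW, wh, wn, wc, wL, wl, Prod.smul_snd, Pi.smul_apply, smul_eq_mul,
      Reduce_sum, Hf, Qf, Pi.zero_apply, zero_mul, Finset.sum_const_zero]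
    constructor <;> ring

theorem rel_ex {t : Par → ℂ} (ht : ContainsScroll t) : ∃ w, (t, w) ∈ MW := by
  obtain ⟨E, hE⟩ := Reduce_inv
  have h1 : ∀ u v, Hf t (pl u v) = ∑ i, gp u v i * Hf t (E i) := fun u v => by
    change Reduce_H t (pl u v) = ∑ i, gp u v i * Reduce_H t (E i)
    rw [hE]
    simp only [map_sum, map_smul, smul_eq_mul]
  have h2 : ∀ u v, Qf t (pl u v) (pl u v) = ∑ i, ∑ j, gp u v i * gp u v j * Qf t (E j) (E i) := fun u v => by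
    change Reduce_Q t (pl u v) (pl u v) = ∑ i, ∑ j, gp u v i * gp u v j * Reduce_Q t (E j) (E i)
    rw [hE]
    simp only [map_sum, map_smul, smul_eq_mul, LinearMap.sum_apply, LinearMap.smul_apply, Finset.mul_sum,
      mul_assoc]
  have h3 : ∀ (a w d : ℂ) (g : Fin 10 → ℂ),
      g = ![-w, -(a * w), -(a * w), -(a ^ 2 * w), d, 2 * a * d, a ^ 2 * d, 0, 0, 0] →
        ∑ i, g i * Hf t (E i) = 0 ∧ ∑ i, ∑ j, g i * g j * Qf t (E j) (E i) = 0 := by
    intro a w d g hg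
    have := ht 1 a 0 d w
    rw [h1, h2, Reduce_scroll] at this
    simpa only [hg, one_pow, one_mul, mul_one, mul_zero, sub_zero] using this
  have h4 := Reduce_lin (fun i => Hf t (E i)) fun a w d g hg => (h3 a w d g hg).1
  obtain ⟨c, L, l0, l1, l2, h5⟩ := Reduce_core (fun i j => Qf t (E j) (E i))
    fun a w d g hg => (h3 a w d g hg).2
  refine ⟨Sum.elim ![Hf t (E 1), Hf t (E 7), Hf t (E 8), Hf t (E 9)] (Sum.elim (fun _ => c)
    fun p => ![L, l0, l1, l2] p.1 p.2), fun u v => ?_⟩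
  rw [h1, h2, h4, h5 u v _ rfl]
  exact ⟨rfl, rfl⟩

theorem sc_section : ∃ σ : (Par → ℂ) →ₗ[ℂ] WI → ℂ, ∀ t, ContainsScroll t → (t, σ t) ∈ MW := by
  let π : MW →ₗ[ℂ] Par → ℂ := (LinearMap.fst ℂ _ _).comp MW.subtype
  obtain ⟨r, hr⟩ := π.rangeRestrict.exists_rightInverse_of_surjective π.range_rangeRestrict
  obtain ⟨σ, hσ⟩ := ((LinearMap.snd ℂ _ _).comp (MW.subtype.comp r)).exists_extend
  refine ⟨σ, fun t ht => ?_⟩
  obtain ⟨w, hw⟩ := rel_ex ht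
  have m : t ∈ LinearMap.range π := ⟨⟨(t, w), hw⟩, rfl⟩
  have e1 : (r ⟨t, m⟩).1.1 = t := congrArg Subtype.val (LinearMap.congr_fun hr ⟨t, m⟩)
  have e2 : σ t = (r ⟨t, m⟩).1.2 := LinearMap.congr_fun hσ ⟨t, m⟩
  have e3 : (t, σ t) = (r ⟨t, m⟩).1 := Prod.ext e1.symm e2
  rw [e3]
  exact (r ⟨t, m⟩).2

def thOf (ν : Fin 3 → ℂ) (m : Fin 3 → Fin 10 → ℂ) : Th → ℂ := fun ka =>
  (![m ka.1 0, m ka.1 1, m ka.1 2, m ka.1 3, m ka.1 4, m ka.1 5, m ka.1 6, m ka.1 7,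
    m ka.1 8, m ka.1 9, ν ka.1] : Fin 11 → ℂ) ka.2

noncomputable def nuW (w : WI → ℂ) (k : Fin 3) : ℂ := (0 - wn w k) * (wh w)⁻¹

noncomputable def mW (w : WI → ℂ) (k : Fin 3) (a : Fin 10) : ℂ :=
  (wl w k a + nuW w k * wL w a) * (wc w)⁻¹

/-- The normal form of a presentation. -/
noncomputable def thW (w : WI → ℂ) : Th → ℂ := thOf (nuW w) (mW w)

theorem sc_norm {w : WI → ℂ} (hh : wh w ≠ 0) (hc : wc w ≠ 0) (g : Fin 10 → ℂ) :
    linW w g = wh w * Hn (thW w) g ∧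
      quadW w g = wc w * Qn (thW w) g g + Hn (thW w) g * ∑ i, wL w i * g i := by
  have hν : ∀ k, wn w k = -(wh w * nuW w k) := fun k => by
    rw [nuW]
    field_simp
    ring
  have hm : ∀ k a, wl w k a = wc w * mW w k a - nuW w k * wL w a := fun k a => by
    rw [mW]
    field_simp
    ring
  simp only [linW, quadW, thW, thOf, Hn, Qn, lf, ll, Matrix.cons_val, hν, hm, Reduce_sum]
  constructor <;> ring

def mkW (h c : ℂ) (L : Fin 10 → ℂ) (θ : Th → ℂ) : WI → ℂ :=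
  Sum.elim (Fin.cons h fun k => -(h * θ (k, 10))) (Sum.elim (fun _ => c) fun p =>
    (Fin.cons L fun k a => c * θ (k, a.castSucc) - θ (k, 10) * L a : Fin 4 → Fin 10 → ℂ) p.1 p.2)

theorem th_mkW {h c : ℂ} (hh : h ≠ 0) (hc : c ≠ 0) (L : Fin 10 → ℂ) (θ : Th → ℂ) :
    thW (mkW h c L θ) = θ := by
  have e1 : nuW (mkW h c L θ) = fun k => θ (k, 10) := funext fun k => by
    change (0 - -(h * θ (k, 10))) * h⁻¹ = _
    field_simp
    ring
  have e2 : mW (mkW h c L θ) = fun k a => θ (k, a.castSucc) := funext fun k => funext fun a => by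
    rw [mW, e1]
    change (c * θ (k, a.castSucc) - θ (k, 10) * L a + θ (k, 10) * L a) * c⁻¹ = _
    field_simp
    ring
  rw [thW, e1, e2]
  funext ⟨k, a⟩
  fin_cases a <;> rfl

theorem rat_thW {φ : (Par → ℂ) → WI → ℂ} (hφ : ∀ i, Pol fun t => φ t i) (s : Th) :
    RatPol (fun t => wh (φ t) * wc (φ t)) fun t => thW (φ t) s := by
  have hu : Pol fun t => wh (φ t) * wc (φ t) := (hφ _).mul (hφ _)
  have h1 : ∀ k, RatPol (fun t => wh (φ t) * wc (φ t)) fun t => nuW (φ t) k := fun k =>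
    ((pol_C 0).sub (hφ _)).rat.mul (sc_inv (hφ _) fun _ => rfl)
  have h2 : ∀ k a, RatPol (fun t => wh (φ t) * wc (φ t)) fun t => mW (φ t) k a := fun k a =>
    ((hφ _).rat.add hu ((h1 k).mul (hφ _).rat)).mul (sc_inv (hφ _) fun _ => mul_comm _ _)
  obtain ⟨k, a⟩ := s
  fin_cases a
  exacts [h2 k 0, h2 k 1, h2 k 2, h2 k 3, h2 k 4, h2 k 5, h2 k 6, h2 k 7, h2 k 8, h2 k 9, h1 k]

theorem scroll_main (f : MvPolynomial Par ℂ) (hf : ∃ t, ContainsScroll t ∧ eval t f ≠ 0) :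
    ∃ F g : MvPolynomial Par ℂ, (∃ t, ContainsScroll t ∧ eval t F = 0 ∧ eval t (f * g) ≠ 0) ∧
      ∀ t, ContainsScroll t → eval t F = 0 → eval t g ≠ 0 → IsSmoothGM t ∧ Chart t := by
  obtain ⟨t0, ht0, hf0⟩ := hf
  obtain ⟨G, hG⟩ := Reduce_G
  obtain ⟨t1, h, c, L, θ0, hf1, hh, hc, h1⟩ := Reduce_nf hG f ht0 hf0
  obtain ⟨E, hE⟩ : ∃ E : Idx → Fin 10 → ℂ, E = fun s => G fun j => if s = j then 1 else 0 := ⟨_, rfl⟩
  obtain ⟨d, hd⟩ : ∃ d, d = t1 + (-1 : ℂ) • Reduce_co h c L E θ0 := ⟨_, rfl⟩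
  have hd1 : ∀ u v, Hf d (pl u v) = 0 ∧ Qf d (pl u v) (pl u v) = 0 := fun u v => by
    rw [hd, hE, (Reduce_add _ _ _ _ (pl u v)).1, (Reduce_add _ _ _ _ _).2,
      (Reduce_co_eq _ _ _ _ _ _ (pl u v)).1, (Reduce_co_eq _ _ _ _ _ _ _).2, hG, (h1 u v).1, (h1 u v).2]
    constructor <;> ring
  obtain ⟨F, hF⟩ : ∃ F : MvPolynomial Th ℂ, ∀ θ,
      eval θ F = eval (d + (1 : ℂ) • Reduce_co h c L E θ) f :=
    ⟨eval₂ C (fun s => C (d s) + Reduce_co (C h) (C c) (fun a => C (L a)) (fun s a => C (E s a)) X s) f,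
      fun θ => by
      rw [hom_eval₂]
      congr 1
      · ext x
        simp
      · ext s
        cases s <;> simp [Reduce_co, map_Hn, map_Qn]⟩
  obtain ⟨gN, n0, hN⟩ := sc_normal
  obtain ⟨F0, g0, ⟨θ, a1, a2⟩, h3⟩ := th_div (F * gN) (mul_ne_zero (fun h0 => hf1 (by
    have := hF θ0
    rw [h0, map_zero, hd, add_assoc, ← add_smul, neg_add_cancel, zero_smul, add_zero] at this
    exact this.symm)) n0)
  have hθ := (h3 θ a1 a2).1
  rw [map_mul, hF] at hθ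
  obtain ⟨t, ht⟩ : ∃ t, t = d + (1 : ℂ) • Reduce_co h c L E θ := ⟨_, rfl⟩
  rw [← ht] at hθ
  have hH' : ∀ u v, Hf t (pl u v) = h * Hn θ (gp u v) := fun u v => by
    rw [ht, hE, (Reduce_add _ _ _ _ (pl u v)).1, (Reduce_co_eq _ _ _ _ _ _ (pl u v)).1, one_mul,
      (hd1 u v).1, zero_add, hG]
  have hQ' : ∀ u v, Qf t (pl u v) (pl u v) =
      c * Qn θ (gp u v) (gp u v) + Hn θ (gp u v) * ∑ a, L a * gp u v a := fun u v => by
    rw [ht, hE, (Reduce_add _ _ _ _ _).2, (Reduce_co_eq _ _ _ _ _ _ _).2, one_mul,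
      (hd1 u v).2, zero_add, hG]
  have hts : ContainsScroll t := fun a0 a1 b0 b1 w => by
    rw [hH', hQ', Reduce_scroll]
    simp only [Hn, Qn, lf, Matrix.cons_val]
    constructor <;> ring
  have hw0 : (t, mkW h c L θ) ∈ MW := fun u v => by
    have k := sc_norm (w := mkW h c L θ) hh hc (gp u v)
    rw [th_mkW hh hc] at k
    exact ⟨(hH' u v).trans k.1.symm, (hQ' u v).trans k.2.symm⟩
  obtain ⟨σ, hσ⟩ := sc_section
  obtain ⟨φ, eφ⟩ : ∃ φ : (Par → ℂ) → WI → ℂ, φ = fun x => σ x + (mkW h c L θ - σ t) := ⟨_, rfl⟩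
  have p1 : ∀ x, ContainsScroll x → (x, φ x) ∈ MW := fun x hx => by
    have k := MW.add_mem (hσ x hx) (MW.sub_mem hw0 (hσ t hts))
    rw [Prod.mk_sub_mk, Prod.mk_add_mk, sub_self, add_zero] at k
    rwa [eφ]
  have p2 : φ t = mkW h c L θ := by rw [eφ]; exact add_sub_cancel _ _
  have p3 : ∀ i, Pol fun x => φ x i := fun i => by
    have k : ∀ x, φ x i = ∑ s, x s * σ (fun j => if s = j then 1 else 0) i +
        (mkW h c L θ - σ t) i := fun x => by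
      rw [eφ]
      beta_reduce
      rw [Pi.add_apply, σ.pi_apply_eq_sum_univ x, Finset.sum_apply]
      rfl
    simp only [k]
    exact (pol_sum fun s => (pol_X s).mul (pol_C _)).add (pol_C _)
  have hu : Pol fun x => wh (φ x) * wc (φ x) := (p3 _).mul (p3 _)
  obtain ⟨F1, N1, q1⟩ := sc_ev hu (rat_thW p3) F0
  obtain ⟨g1, N2, q2⟩ := sc_ev hu (rat_thW p3) g0
  obtain ⟨U, hU⟩ := hu
  refine ⟨F1, g1 * U, ⟨t, hts, ?_⟩, fun x hx k1 k2 => ?_⟩
  · have k : wh (φ t) * wc (φ t) ≠ 0 := by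
      rw [p2]
      exact mul_ne_zero hh hc
    rw [map_mul, map_mul, ← q1 t k, ← q2 t k, ← hU]
    beta_reduce
    rw [p2, th_mkW hh hc, a1, zero_mul]
    rw [p2] at k
    exact ⟨rfl, mul_ne_zero (left_ne_zero_of_mul hθ) (mul_ne_zero
      (mul_ne_zero a2 (pow_ne_zero _ k)) k)⟩
  · rw [map_mul, ← hU] at k2
    have k := right_ne_zero_of_mul k2
    rw [← q1 x k] at k1
    rw [← q2 x k] at k2
    obtain ⟨b1, b2⟩ := h3 _ ((mul_eq_zero.1 k1).resolve_right (pow_ne_zero _ k))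
      (left_ne_zero_of_mul (left_ne_zero_of_mul k2))
    rw [map_mul] at b1
    obtain ⟨c1, c2, c3⟩ := hN _ (right_ne_zero_of_mul b1) b2
    have k3 := sc_norm (left_ne_zero_of_mul k) (right_ne_zero_of_mul k)
    exact sc_transfer (left_ne_zero_of_mul k) (right_ne_zero_of_mul k)
      (fun u v => (p1 x hx u v).1.trans (k3 _).1) (fun u v => (p1 x hx u v).2.trans (k3 _).2)
      c1 c2 c3

end Pool.Agent.GMDiv
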