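import Mathlib

set_option autoImplicit false

open MvPolynomial PrimeSpectrum Topology

namespace Pool.Agent.GMDiv

abbrev PR (ι : Type) := MvPolynomial ι ℂ

/-- The maximal ideal of a point. -/
noncomputable def pt {ι : Type} (x : ι → ℂ) : PrimeSpectrum (PR ι) := pointToPoint (k := ℂ) x

theorem mem_pt {ι : Type} (x : ι → ℂ) (p : PR ι) : p ∈ (pt x).asIdeal ↔ eval x p = 0 := by
  rw [← coe_aeval_eq_eval]
  exact mem_vanishingIdeal_singleton_iff x p

theorem open_con {ι : Type} [Finite ι] {U : Set (PrimeSpectrum (PR ι))} (hU : IsOpen U) :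
    IsConstructible U :=
  IsRetrocompact.isConstructible hU fun _ _ _ => TopologicalSpace.NoetherianSpace.isCompact _

/-- A constructible set is locally trivial along the closure of a point. -/
theorem con_nhds {X : Type} [TopologicalSpace X] {C : Set X} (hC : IsConstructible C) (p : X) :
    ∃ W, IsOpen W ∧ p ∈ W ∧ ∀ q ∈ W, p ⤳ q → (q ∈ C ↔ p ∈ C) := by
  induction hC using IsConstructible.empty_union_induction with
  | open_retrocompact U hU _ =>
    by_cases h : p ∈ U
    · exact ⟨U, hU, h, fun q hq _ => iff_of_true hq h⟩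
    · exact ⟨Set.univ, isOpen_univ, trivial, fun q _ hs =>
        ⟨fun k => hs.mem_open hU k, fun k => absurd k h⟩⟩
  | union s _ t _ hs ht =>
    obtain ⟨W, h1, h2, h3⟩ := hs
    obtain ⟨W', k1, k2, k3⟩ := ht
    exact ⟨W ∩ W', h1.inter k1, ⟨h2, k2⟩, fun q hq h => or_congr (h3 q hq.1 h) (k3 q hq.2 h)⟩
  | compl s _ hs =>
    obtain ⟨W, h1, h2, h3⟩ := hs
    exact ⟨W, h1, h2, fun q hq h => not_congr (h3 q hq h)⟩

theorem con_basic {R : Type} [CommRing R] {C : Set (PrimeSpectrum R)} (hC : IsConstructible C)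
    (p : PrimeSpectrum R) :
    ∃ g, g ∉ p.asIdeal ∧ ∀ q, p ≤ q → g ∉ q.asIdeal → (q ∈ C ↔ p ∈ C) := by
  obtain ⟨W, h1, h2, h3⟩ := con_nhds hC p
  obtain ⟨_, ⟨g, rfl⟩, k1, k2⟩ := isTopologicalBasis_basic_opens.exists_subset_of_mem_open h2 h1
  exact ⟨g, k1, fun q hq hg => h3 q (k2 hg) ((le_iff_specializes p q).1 hq)⟩

theorem exists_pt {ι : Type} [Finite ι] (p : PrimeSpectrum (PR ι)) {g : PR ι}
    (hg : g ∉ p.asIdeal) : ∃ x, p ≤ pt x ∧ eval x g ≠ 0 := by
  by_contra h
  push Not at h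
  apply hg
  rw [← IsPrime.vanishingIdeal_zeroLocus (K := ℂ) p.asIdeal]
  intro x hx
  exact (mem_vanishingIdeal_singleton_iff x g).1 ((mem_pt x g).2 (h x fun f hf =>
    (mem_vanishingIdeal_singleton_iff x f).2 (hx f hf)))

theorem con_pt {ι : Type} [Finite ι] {C : Set (PrimeSpectrum (PR ι))} (hC : IsConstructible C)
    {p : PrimeSpectrum (PR ι)} (hp : p ∈ C) : ∃ x, p ≤ pt x ∧ pt x ∈ C := by
  obtain ⟨g, h1, h2⟩ := con_basic hC p
  obtain ⟨x, k1, k2⟩ := exists_pt p h1
  exact ⟨x, k1, (h2 _ k1 fun k => k2 ((mem_pt x g).1 k)).2 hp⟩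

theorem pt_le {ι : Type} {x y : ι → ℂ} (h : pt x ≤ pt y) : y = x := by
  funext i
  have := (mem_pt y (X i - C (x i))).1 (h ((mem_pt x _).2 (by simp)))
  simpa [sub_eq_zero] using this

/-- The ring map of a polynomial map. -/
noncomputable def sub {ι κ : Type} (φ : κ → PR ι) : PR κ →+* PR ι := (aeval φ : PR κ →ₐ[ℂ] PR ι)

theorem eval_sub' {ι κ : Type} (φ : κ → PR ι) (z : ι → ℂ) (p : PR κ) :
    eval z (sub φ p) = eval (fun k => eval z (φ k)) p := by
  induction p using MvPolynomial.induction_on with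
  | C a => simp [sub]
  | add p q hp hq => rw [map_add, map_add, map_add, hp, hq]
  | mul_X p k hp =>
    rw [map_mul, map_mul, map_mul, hp]
    simp [sub]

theorem comap_pt {ι κ : Type} (φ : κ → PR ι) (z : ι → ℂ) :
    comap (sub φ) (pt z) = pt fun k => eval z (φ k) := by
  ext p
  rw [comap_asIdeal, Ideal.mem_comap, mem_pt, mem_pt, eval_sub']

theorem sub_fp {ι κ : Type} [Finite ι] [Finite κ] (φ : κ → PR ι) : (sub φ).FinitePresentation := by
  refine RingHom.FinitePresentation.of_finiteType.1 (RingHom.FiniteType.of_comp_finiteType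
    (f := algebraMap ℂ (PR κ)) ?_)
  have e : (sub φ).comp (algebraMap ℂ (PR κ)) = algebraMap ℂ (PR ι) :=
    AlgHom.comp_algebraMap _
  rw [e, RingHom.finiteType_algebraMap]
  infer_instance

/-- Constructible properties of points of affine space. -/
def Con {ι : Type} (P : (ι → ℂ) → Prop) : Prop :=
  ∃ C : Set (PrimeSpectrum (PR ι)), IsConstructible C ∧ ∀ x, P x ↔ pt x ∈ C

/-- Polynomial functions. -/
def Pol {ι : Type} (f : (ι → ℂ) → ℂ) : Prop := ∃ p : PR ι, ∀ x, f x = eval x p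

section
variable {ι κ : Type}

theorem Con.congr {P Q : (ι → ℂ) → Prop} (h : Con P) (e : ∀ x, Q x ↔ P x) : Con Q := by
  obtain ⟨C, h1, h2⟩ := h
  exact ⟨C, h1, fun x => (e x).trans (h2 x)⟩

theorem Con.not {P : (ι → ℂ) → Prop} (h : Con P) : Con fun x => ¬ P x := by
  obtain ⟨C, h1, h2⟩ := h
  exact ⟨Cᶜ, h1.compl, fun x => not_congr (h2 x)⟩

theorem Con.and {P Q : (ι → ℂ) → Prop} (h : Con P) (k : Con Q) : Con fun x => P x ∧ Q x := by
  obtain ⟨C, h1, h2⟩ := h
  obtain ⟨D, k1, k2⟩ := k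
  exact ⟨C ∩ D, h1.inter k1, fun x => and_congr (h2 x) (k2 x)⟩

theorem Con.imp {P Q : (ι → ℂ) → Prop} (h : Con P) (k : Con Q) : Con fun x => P x → Q x :=
  (h.and k.not).not.congr fun _ => by tauto

theorem con_fin {α : Type} [Finite α] {P : α → (ι → ℂ) → Prop} (h : ∀ a, Con (P a)) :
    Con fun x => ∀ a, P a x := by
  choose C h1 h2 using h
  exact ⟨⋂ a, C a, IsConstructible.iInter h1, fun x => by
    rw [Set.mem_iInter]
    exact forall_congr' fun a => h2 a x⟩

theorem Pol.ne [Finite ι] {f : (ι → ℂ) → ℂ} (h : Pol f) : Con fun x => f x ≠ 0 := by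
  obtain ⟨p, hp⟩ := h
  exact ⟨basicOpen p, open_con isOpen_basicOpen, fun x => by
    beta_reduce
    rw [hp]
    exact (not_congr (mem_pt x p)).symm⟩

theorem Pol.eq [Finite ι] {f : (ι → ℂ) → ℂ} (h : Pol f) : Con fun x => f x = 0 :=
  h.ne.not.congr fun _ => not_not.symm

theorem Con.pre [Finite ι] {P : (κ → ℂ) → Prop} (h : Con P) {f : (ι → ℂ) → κ → ℂ}
    (hf : ∀ k, Pol fun x => f x k) : Con fun x => P (f x) := by
  choose φ hφ using hf
  obtain ⟨C, h1, h2⟩ := h
  refine ⟨comap (sub φ) ⁻¹' C, h1.preimage (continuous_comap _) fun _ _ _ _ _ _ =>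
    TopologicalSpace.NoetherianSpace.isCompact _, fun x => ?_⟩
  beta_reduce
  rw [Set.mem_preimage, comap_pt, h2]
  exact iff_of_eq (congrArg (fun y => pt y ∈ C) (funext fun k => hφ k x))

/-- Chevalley's theorem on closed points. -/
theorem Con.img [Finite ι] [Finite κ] {P : (ι → ℂ) → Prop} (h : Con P) {f : (ι → ℂ) → κ → ℂ}
    (hf : ∀ k, Pol fun x => f x k) : Con fun y => ∃ x, P x ∧ f x = y := by
  choose φ hφ using hf
  obtain ⟨C, h1, h2⟩ := h
  have e : ∀ x, comap (sub φ) (pt x) = pt (f x) := fun x => by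
    rw [comap_pt]
    exact congrArg pt (funext fun k => (hφ k x).symm)
  refine ⟨comap (sub φ) '' C, isConstructible_comap_image (sub_fp φ) h1, fun y => ⟨?_, ?_⟩⟩
  · rintro ⟨x, hx, rfl⟩
    exact ⟨pt x, (h2 x).1 hx, e x⟩
  · rintro ⟨p, hp, k⟩
    obtain ⟨x, k1, k2⟩ := con_pt h1 hp
    refine ⟨x, (h2 x).2 k2, pt_le ?_⟩
    rw [← k, ← e]
    exact fun f hf => k1 hf

theorem pol_X (i : ι) : Pol fun x : ι → ℂ => x i := ⟨X i, fun _ => (eval_X i).symm⟩

theorem pol_C (c : ℂ) : Pol fun _ : ι → ℂ => c := ⟨C c, fun _ => (eval_C c).symm⟩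

theorem Pol.add {f g : (ι → ℂ) → ℂ} (h : Pol f) (k : Pol g) : Pol fun x => f x + g x := by
  obtain ⟨p, hp⟩ := h
  obtain ⟨q, hq⟩ := k
  exact ⟨p + q, fun x => by rw [map_add, ← hp, ← hq]⟩

theorem Pol.sub {f g : (ι → ℂ) → ℂ} (h : Pol f) (k : Pol g) : Pol fun x => f x - g x := by
  obtain ⟨p, hp⟩ := h
  obtain ⟨q, hq⟩ := k
  exact ⟨p - q, fun x => by rw [map_sub, ← hp, ← hq]⟩

theorem Pol.mul {f g : (ι → ℂ) → ℂ} (h : Pol f) (k : Pol g) : Pol fun x => f x * g x := by
  obtain ⟨p, hp⟩ := h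
  obtain ⟨q, hq⟩ := k
  exact ⟨p * q, fun x => by rw [map_mul, ← hp, ← hq]⟩

theorem pol_sum {α : Type} [Fintype α] {f : α → (ι → ℂ) → ℂ} (h : ∀ a, Pol (f a)) :
    Pol fun x => ∑ a, f a x := by
  choose p hp using h
  exact ⟨∑ a, p a, fun x => by
    rw [map_sum]
    exact Finset.sum_congr rfl fun a _ => hp a x⟩

theorem con_ex [Finite ι] [Finite κ] {P : (ι → ℂ) → (κ → ℂ) → Prop}
    (h : Con fun z : ι ⊕ κ → ℂ => P (z ∘ Sum.inl) (z ∘ Sum.inr)) : Con fun x => ∃ y, P x y :=
  (h.img (f := fun z => z ∘ Sum.inl) fun k => pol_X (Sum.inl k)).congr fun x =>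
    ⟨fun ⟨y, hy⟩ => ⟨Sum.elim x y, hy, rfl⟩, fun ⟨z, hz, e⟩ => ⟨z ∘ Sum.inr, e ▸ hz⟩⟩

theorem con_all [Finite ι] [Finite κ] {P : (ι → ℂ) → (κ → ℂ) → Prop}
    (h : Con fun z : ι ⊕ κ → ℂ => P (z ∘ Sum.inl) (z ∘ Sum.inr)) : Con fun x => ∀ y, P x y :=
  (con_ex (P := fun x y => ¬ P x y) h.not).not.congr fun _ => by
    simp only [not_exists, not_not]

end

attribute [local instance] Polynomial.algebra in
/-- Two comparable nonzero primes of `R[X]` that meet `R` in zero are equal. -/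
theorem prime_eq {R : Type} [CommRing R] [IsDomain R] {P Q : Ideal (Polynomial R)}
    (hP : P.IsPrime) (hQ : Q.IsPrime) (h : P ≤ Q) (h0 : P ≠ ⊥)
    (hd : ∀ r, Polynomial.C r ∈ Q → r = 0) : P = Q := by
  have := Polynomial.isLocalization (nonZeroDivisors R) (FractionRing R)
  have dQ : Disjoint (((nonZeroDivisors R).map (Polynomial.C : R →+* Polynomial R) :
      Submonoid (Polynomial R)) : Set (Polynomial R)) (Q : Set (Polynomial R)) := by
    rw [Set.disjoint_left]
    rintro _ ⟨r, hr, rfl⟩ k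
    exact nonZeroDivisors.ne_zero hr (hd r k)
  have dP := dQ.mono_right (show (P : Set (Polynomial R)) ≤ Q from h)
  have p1 := IsLocalization.isPrime_of_isPrime_disjoint _ (Polynomial (FractionRing R)) P hP dP
  have q1 := IsLocalization.isPrime_of_isPrime_disjoint _ (Polynomial (FractionRing R)) Q hQ dQ
  have p2 := IsLocalization.under_map_of_isPrime_disjoint _ (Polynomial (FractionRing R)) hP dP
  have q2 := IsLocalization.under_map_of_isPrime_disjoint _ (Polynomial (FractionRing R)) hQ dQ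
  have n : Ideal.map (algebraMap (Polynomial R) (Polynomial (FractionRing R))) P ≠ ⊥ := by
    intro k
    apply h0
    rw [← p2, k]
    exact Ideal.comap_bot_of_injective _
      (Polynomial.map_injective _ (IsFractionRing.injective R (FractionRing R)))
  have m := IsPrime.to_maximal_ideal n
  rw [← p2, ← q2, m.eq_of_le q1.ne_top (Ideal.map_mono h)]

/-- A constructible set whose projection along one coordinate has interior contains a dense open
part of an irreducible hypersurface. -/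
theorem divisor {ι : Type} [Finite ι] [DecidableEq ι] {G : (ι → ℂ) → Prop} (hG : Con G) (s : ι)
    (h : ∀ f : PR ι, f ≠ 0 → ∃ y, eval y f ≠ 0 ∧ ∃ z, G z ∧ ∀ i, i ≠ s → z i = y i) :
    ∃ F g : PR ι, Irreducible F ∧ ¬ F ∣ g ∧ ∀ z, eval z F = 0 → eval z g ≠ 0 → G z := by
  obtain ⟨C, h1, h2⟩ := hG
  let φ : {i // i ≠ s} → PR ι := fun i => X i.1
  let e : PR ι ≃ₐ[ℂ] Polynomial (PR {i // i ≠ s}) :=
    (renameEquiv ℂ (Equiv.optionSubtypeNe s).symm).trans (optionEquivLeft ℂ _)
  have e1 : ∀ r, e (sub φ r) = Polynomial.C r := fun r => by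
    induction r using MvPolynomial.induction_on with
    | C a => simp [sub, e]
    | add p q hp hq => rw [map_add, map_add, map_add, hp, hq]
    | mul_X p k hp =>
      rw [map_mul, map_mul, map_mul, hp]
      simp [sub, e, φ, Equiv.optionSubtypeNe_symm_of_ne k.2, optionEquivLeft_X_some]
  have e2 : e (X s) = Polynomial.X := by
    simp [e, optionEquivLeft_X_none]
  have h3 := isConstructible_comap_image (sub_fp φ) h1
  obtain ⟨f, f1, f2⟩ := con_basic h3 ⊥
  have f3 : sub φ f ≠ 0 := fun k => f1 (by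
    have := e1 f
    rw [k, map_zero, eq_comm, Polynomial.C_eq_zero] at this
    rw [this]
    exact zero_mem _)
  obtain ⟨y, y1, z, z1, z2⟩ := h _ f3
  obtain ⟨p, p1, p2⟩ := (f2 (comap (sub φ) (pt z)) bot_le (by
    rw [comap_pt, mem_pt]
    rw [eval_sub'] at y1
    have : (fun k => eval z (φ k)) = fun k => eval y (φ k) := funext fun k => by
      simp [φ, z2 _ k.2]
    rwa [this])).1 ⟨pt z, (h2 z).1 z1, rfl⟩
  obtain ⟨g, g1, g2⟩ := con_basic h1 p
  have key : ∀ F : PR ι, (∀ x, eval x F = 0 → p ≤ pt x) →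
      ∀ x, eval x F = 0 → eval x g ≠ 0 → G x := fun F hF x hx hg =>
    (h2 x).2 ((g2 _ (hF x hx) fun k => hg ((mem_pt x g).1 k)).2 p1)
  by_cases h0 : p.asIdeal = ⊥
  · obtain ⟨x, -, x2⟩ := exists_pt p g1
    refine ⟨X s - MvPolynomial.C (x s), g, ?_, ?_, key _ fun x _ f hf => ?_⟩
    · rw [← MulEquiv.irreducible_iff e.toMulEquiv]
      have : e.toMulEquiv (X s - MvPolynomial.C (x s)) =
          Polynomial.X - Polynomial.C (MvPolynomial.C (x s)) := by
        change e _ = _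
        rw [map_sub, e2, ← e1]
        simp [sub]
      rw [this]
      exact Polynomial.irreducible_X_sub_C _
    · rintro ⟨r, rfl⟩
      simp at x2
    · rw [h0, Ideal.mem_bot] at hf
      rw [hf]
      exact zero_mem _
  · obtain ⟨F, F1, F2⟩ := p.isPrime.exists_mem_prime_of_ne_bot h0
    have F3 : (Ideal.span {F}).IsPrime := (Ideal.span_singleton_prime F2.ne_zero).2 F2
    have F4 : Ideal.span {F} ≤ p.asIdeal := (Ideal.span_singleton_le_iff_mem _).2 F1
    have F5 : Ideal.span {F} = p.asIdeal := by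
      have := p.isPrime
      have k := prime_eq (P := (Ideal.span {F}).comap (e.symm : Polynomial (PR {i // i ≠ s}) →+* PR ι))
        (Q := p.asIdeal.comap (e.symm : Polynomial (PR {i // i ≠ s}) →+* PR ι)) inferInstance inferInstance
        (Ideal.comap_mono F4) (fun k => ?_) fun r hr => ?_
      · exact Ideal.comap_injective_of_surjective _ e.symm.surjective k
      · have : e F ∈ (Ideal.span {F}).comap (e.symm : Polynomial (PR {i // i ≠ s}) →+* PR ι) := by
          rw [Ideal.mem_comap]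
          simp
        rw [k, Ideal.mem_bot] at this
        exact F2.ne_zero (by simpa using this)
      · rw [Ideal.mem_comap, ← e1] at hr
        have hr' : r ∈ (comap (sub φ) p).asIdeal := by simpa using hr
        rw [p2] at hr'
        exact hr'
    refine ⟨F, g, F2.irreducible, fun k => g1 (F4 (Ideal.mem_span_singleton.2 k)),
      key F fun x hx => ?_⟩
    change p.asIdeal ≤ (pt x).asIdeal
    rw [← F5, Ideal.span_singleton_le_iff_mem, mem_pt]
    exact hx

end Pool.Agent.GMDiv
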