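import Pool.Agent.Work.MP_274aea_ag_D34.Ext
import Pool.Agent.Work.MP_274aea_ag_Div.Chev

set_option autoImplicit false

open MvPolynomial Matrix Pool.Agent.GM16 Pool.Agent.GM34 Filter Topology

namespace Pool.Agent.GMDiv

section
variable {ι : Type}

theorem pol_pw {u v : (ι → ℂ) → Fin 5 → ℂ} (hu : ∀ i, Pol fun x => u x i)
    (hv : ∀ i, Pol fun x => v x i) (k : Fin 10) : Pol fun x => pw (u x) (v x) k := by
  fin_cases k <;> exact ((hu _).mul (hv _)).sub ((hu _).mul (hv _))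

theorem pol_dot {p q : (ι → ℂ) → Fin 10 → ℂ} (hp : ∀ i, Pol fun x => p x i)
    (hq : ∀ i, Pol fun x => q x i) : Pol fun x => p x ⬝ᵥ q x :=
  pol_sum fun i => (hp i).mul (hq i)

theorem pol_bq {q : (ι → ℂ) → M10 ℂ} {p p' : (ι → ℂ) → Fin 10 → ℂ}
    (hq : ∀ i j, Pol fun x => q x i j) (hp : ∀ i, Pol fun x => p x i)
    (hp' : ∀ i, Pol fun x => p' x i) : Pol fun x => bq (q x) (p x) (p' x) :=
  pol_dot hp fun i => pol_dot (hq i) hp'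

end

/-- The tangent condition of the Jacobian criterion. -/
def Tan (t : Par → ℂ) (u v : Fin 5 → ℂ) (a b : ℂ) (u' v' : Fin 5 → ℂ) : ℂ :=
  a * hv t ⬝ᵥ (pw u' v + pw u v') + b * bs (qm t) (pw u v) (pw u' v + pw u v')

abbrev W1 := Fin 5 ⊕ Fin 5 ⊕ Fin 2

abbrev W2 := Fin 5 ⊕ Fin 5

theorem con_tan : Con fun z : Par ⊕ W1 → ℂ => ∀ w : W2 → ℂ,
    Tan (z ∘ Sum.inl) ((z ∘ Sum.inr) ∘ Sum.inl) ((z ∘ Sum.inr) ∘ Sum.inr ∘ Sum.inl)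
      (z (Sum.inr (Sum.inr (Sum.inr 0)))) (z (Sum.inr (Sum.inr (Sum.inr 1))))
      (w ∘ Sum.inl) (w ∘ Sum.inr) = 0 := by
  refine con_all (Pol.eq ?_)
  have c1 : ∀ k, Pol fun x : (Par ⊕ W1) ⊕ W2 → ℂ =>
      pw (((x ∘ Sum.inl) ∘ Sum.inr) ∘ Sum.inl) (((x ∘ Sum.inl) ∘ Sum.inr) ∘ Sum.inr ∘ Sum.inl) k :=
    pol_pw (fun _ => pol_X _) fun _ => pol_X _
  have c2 : ∀ k, Pol fun x : (Par ⊕ W1) ⊕ W2 → ℂ =>
      (pw ((x ∘ Sum.inr) ∘ Sum.inl) (((x ∘ Sum.inl) ∘ Sum.inr) ∘ Sum.inr ∘ Sum.inl) +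
        pw (((x ∘ Sum.inl) ∘ Sum.inr) ∘ Sum.inl) ((x ∘ Sum.inr) ∘ Sum.inr)) k := fun k =>
    (pol_pw (fun _ => pol_X _) (fun _ => pol_X _) k).add
      (pol_pw (fun _ => pol_X _) (fun _ => pol_X _) k)
  have c3 : ∀ i j, Pol fun x : (Par ⊕ W1) ⊕ W2 → ℂ => qm ((x ∘ Sum.inl) ∘ Sum.inl) i j :=
    fun _ _ => pol_X _
  exact ((pol_X _).mul (pol_dot (fun _ => pol_X _) c2)).add
    ((pol_X _).mul ((pol_bq c3 c1 c2).add (pol_bq c3 c2 c1)))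

theorem con_smooth : Con fun t : Par → ℂ => SmoothN (hv t) (qm t) := by
  have c1 : ∀ k, Pol fun x : Par ⊕ W1 → ℂ =>
      pw ((x ∘ Sum.inr) ∘ Sum.inl) ((x ∘ Sum.inr) ∘ Sum.inr ∘ Sum.inl) k :=
    pol_pw (fun _ => pol_X _) fun _ => pol_X _
  have c3 : ∀ i j, Pol fun x : Par ⊕ W1 → ℂ => qm (x ∘ Sum.inl) i j := fun _ _ => pol_X _
  have h : Con fun t : Par → ℂ => ∀ y : W1 → ℂ,
      (¬ ∀ k, pw (y ∘ Sum.inl) (y ∘ Sum.inr ∘ Sum.inl) k = 0) →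
      hv t ⬝ᵥ pw (y ∘ Sum.inl) (y ∘ Sum.inr ∘ Sum.inl) = 0 →
      bq (qm t) (pw (y ∘ Sum.inl) (y ∘ Sum.inr ∘ Sum.inl))
        (pw (y ∘ Sum.inl) (y ∘ Sum.inr ∘ Sum.inl)) = 0 →
      (∀ w : W2 → ℂ, Tan t (y ∘ Sum.inl) (y ∘ Sum.inr ∘ Sum.inl) (y (Sum.inr (Sum.inr 0)))
        (y (Sum.inr (Sum.inr 1))) (w ∘ Sum.inl) (w ∘ Sum.inr) = 0) →
      y (Sum.inr (Sum.inr 0)) = 0 ∧ y (Sum.inr (Sum.inr 1)) = 0 :=
    con_all ((con_fin fun k => (c1 k).eq).not.imp ((pol_dot (fun _ => pol_X _) c1).eq.imp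
      ((pol_bq c3 c1 c1).eq.imp (con_tan.imp ((pol_X _).eq.and (pol_X _).eq)))))
  refine h.congr fun t => ⟨fun H y h0 h1 h2 h3 => ?_, fun H u v h0 h1 h2 a b h3 => ?_⟩
  · exact H _ _ (pw_ne.2 fun k => h0 (congrFun k)) h1 h2 _ _ fun u' v' => h3 (Sum.elim u' v')
  · exact H (Sum.elim u (Sum.elim v ![a, b])) (fun k => pw_ne.1 h0 (funext k)) h1 h2
      fun w => h3 _ _

/-- The matrix in the last block of variables. -/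
def nM (w : (Par ⊕ Aux) ⊕ Fin 3 × Fin 3 → ℂ) : M3 ℂ := Matrix.of fun i j => w (Sum.inr (i, j))

theorem ev_w (w : (Par ⊕ Aux) ⊕ Fin 3 × Fin 3 → ℂ) :
    eval w ∘ (X ∘ Sum.inl : Par ⊕ Aux → PR _) = w ∘ Sum.inl ∧ (gN _).map (eval w) = nM w :=
  ⟨funext fun i => eval_X _, by
    ext i j
    simp [gN, nM]⟩

/-- The hypotheses of `step2`, with the inverse matrix as an unknown. -/
def Good (w : (Par ⊕ Aux) ⊕ Fin 3 × Fin 3 → ℂ) : Prop :=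
  (∀ k, F2 (w ∘ Sum.inl) k = 0) ∧
    (∀ k : Fin 3 × Fin 3, (xL (w ∘ Sum.inl) * nM w - 1) k.1 k.2 = 0) ∧
    cond3 (w ∘ Sum.inl) (nM w) ≠ 0 ∧
    SmoothN (hv (xT (w ∘ Sum.inl) (nM w))) (qm (xT (w ∘ Sum.inl) (nM w)))

theorem con_good : Con Good := by
  refine (con_fin fun k => Pol.eq ⟨F2 (X ∘ Sum.inl) k, fun w => ?_⟩).and
    ((con_fin fun k => Pol.eq ?_).and ((Pol.ne ⟨cond3 (X ∘ Sum.inl) (gN _), fun w => ?_⟩).and
      (con_smooth.pre (f := fun w => xT (w ∘ Sum.inl) (nM w)) fun s =>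
        ⟨xT (X ∘ Sum.inl) (gN _) s, fun w => ?_⟩)))
  · rw [map_F2, (ev_w w).1]
  · change Pol fun w => ∑ j, xL (w ∘ Sum.inl) k.1 j * w (Sum.inr (j, k.2)) - (1 : M3 ℂ) k.1 k.2
    refine Pol.sub (pol_sum fun j => Pol.mul ⟨xL (X ∘ Sum.inl) k.1 j, fun w => ?_⟩ (pol_X _))
      (pol_C _)
    have h := map_xL (eval w) (X ∘ Sum.inl : Par ⊕ Aux → PR _)
    rw [(ev_w w).1] at h
    exact (congrFun (congrFun h k.1) j).symm
  · rw [map_cond3, (ev_w w).1, (ev_w w).2]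
  · have h := map_xT (eval w) (X ∘ Sum.inl : Par ⊕ Aux → PR _) (gN _)
    rw [(ev_w w).1, (ev_w w).2] at h
    exact (congrFun h s).symm

theorem good_of {x : Par ⊕ Aux → ℂ} (h0 : F2 x = 0) (hd : (xL x).det ≠ 0)
    (hc : cond3 x (xL x)⁻¹ ≠ 0) (hs : SmoothN (hv (xT x (xL x)⁻¹)) (qm (xT x (xL x)⁻¹))) :
    Good (Sum.elim x fun k => (xL x)⁻¹ k.1 k.2) := by
  refine ⟨congrFun h0, fun k => ?_, hc, hs⟩
  change (xL x * (xL x)⁻¹ - 1) k.1 k.2 = 0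
  rw [mul_nonsing_inv _ (Ne.isUnit hd), sub_self]
  rfl

theorem local_good : ∃ U : Set (Par → ℂ), IsOpen U ∧ U.Nonempty ∧ ∀ y ∈ U,
    ∃ t', (∃ w, Good w ∧ (w ∘ Sum.inl) ∘ Sum.inl = t') ∧ ∀ s, s ≠ s0 → t' s = y s := by
  have hi : (Nh0 : M3 ℂ) * L0 = 1 := mul_eq_one_comm.1 num_inv
  have hd : (xL (x2 : Par ⊕ Aux → ℂ)).det ≠ 0 := by
    rw [x2_L]
    exact det_ne hi
  have h1 : ∀ᶠ x in 𝓝 (x2 : Par ⊕ Aux → ℂ), cond3 x (xL x)⁻¹ ≠ 0 :=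
    (cont_cond3 hd).eventually_ne (by
      rw [x2_L, inv_eq_right_inv hi]
      exact num_cond3)
  obtain ⟨x, ⟨hx1, hx2⟩, h0, hxd, hsm⟩ := step1 _ (h1.eventually_nhds.and ift2)
  have h2 : ∀ᶠ y in 𝓝 x, (xL y).det ≠ 0 := (cont_xL.matrix_det.continuousAt).eventually_ne hxd
  have h3 : ∀ᶠ y in 𝓝 x, SmoothN (hv (xT y (xL y)⁻¹)) (qm (xT y (xL y)⁻¹)) := by
    have c : Continuous fun t : Par → ℂ => (hv t, qm t) :=
      (continuous_pi fun i => continuous_apply _).prodMk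
        (continuous_matrix fun i j => continuous_apply _)
    exact (c.continuousAt.comp (cont_xT hxd)).eventually (isOpen_smooth.mem_nhds hsm)
  have h4 := hx2 _ (hx1.and (h2.and h3))
  have c : Continuous fun y : Par → ℂ => Sum.elim y (x ∘ Sum.inr) :=
    continuous_pi fun i => by
      rcases i with i | i
      · exact continuous_apply i
      · exact continuous_const
  rw [← Sum.elim_comp_inl_inr x] at h4
  obtain ⟨U, hU, ho, hx⟩ := eventually_nhds_iff.1 ((c.tendsto (x ∘ Sum.inl)).eventually h4)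
  refine ⟨U, ho, ⟨_, hx⟩, fun y hy => ?_⟩
  obtain ⟨z, ⟨z1, z2, z3⟩, hz, hF⟩ := hU y hy
  rw [Sum.elim_comp_inl_inr x] at hF
  exact ⟨z ∘ Sum.inl, ⟨_, good_of (hF.trans h0) z2 z1 z3, rfl⟩, hz⟩

theorem main : ∃ F g : MvPolynomial Par ℂ, Irreducible F ∧ ¬ F ∣ g ∧
    ∀ t' : Par → ℂ, eval t' F = 0 → eval t' g ≠ 0 → IsSmoothGM t' ∧ RationalChart t' ∧
      ∃ m t, Anticanonical m ∧ ContainsOctic m t ∧ IsSmoothGM t ∧ Partner t t' := by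
  obtain ⟨U, ho, ⟨x, hx⟩, hU⟩ := local_good
  obtain ⟨F, g, h1, h2, h3⟩ := divisor (con_good.img (f := fun w => (w ∘ Sum.inl) ∘ Sum.inl)
    fun _ => pol_X _) s0 fun f hf => by
      obtain ⟨y, hy, k⟩ := dense_ne f hf x (ho.mem_nhds hx)
      exact ⟨y, k, hU y hy⟩
  refine ⟨F, g, h1, h2, fun t' k1 k2 => ?_⟩
  obtain ⟨w, ⟨a1, a2, a3, a4⟩, rfl⟩ := h3 t' k1 k2
  have e : xL (w ∘ Sum.inl) * nM w = 1 := by
    rw [← sub_eq_zero]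
    ext i j
    exact a2 (i, j)
  rw [← inv_eq_right_inv e] at a3 a4
  obtain ⟨b1, b2, b3, b4, b5, b6⟩ := step2 (funext a1) (det_ne e) a3 a4
  exact ⟨b5, b6, _, _, b1, b2, b3, b4⟩

end Pool.Agent.GMDiv
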