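import Pool.Agent.Work.MP_274aea_ag_Odd.Main
import Pool.Agent.Work.MP_274aea_ag_Div.Chev

set_option autoImplicit false

open Polynomial Matrix Pool.Agent.GM16 Pool.Agent.GM34 Pool.Agent.GMO

namespace Pool.Agent.GMDiv

/-- Families of polynomials in one variable whose coefficients are polynomial functions. -/
def PolX {ι : Type} (a : (ι → ℂ) → ℂ[X]) : Prop :=
  ∃ P : (PR ι)[X], ∀ w, a w = mapRingHom (MvPolynomial.eval w) P

section
variable {ι : Type}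

theorem PolX.coeff {a : (ι → ℂ) → ℂ[X]} (h : PolX a) (k : ℕ) : Pol fun w => (a w).coeff k := by
  obtain ⟨P, hP⟩ := h
  exact ⟨P.coeff k, fun w => by
    beta_reduce
    rw [hP, coe_mapRingHom, coeff_map]⟩

theorem PolX.ev {a : (ι → ℂ) → ℂ[X]} (h : PolX a) :
    Pol fun z : ι ⊕ Unit → ℂ => (a (z ∘ Sum.inl)).eval ((z ∘ Sum.inr) ()) := by
  obtain ⟨P, hP⟩ := h
  refine ⟨P.eval₂ (sub fun i => MvPolynomial.X (Sum.inl i)) (MvPolynomial.X (Sum.inr ())),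
    fun z => ?_⟩
  have e : (MvPolynomial.eval z).comp (sub fun i => MvPolynomial.X (Sum.inl i)) =
      MvPolynomial.eval (z ∘ Sum.inl) := RingHom.ext fun p => by
    rw [RingHom.comp_apply, eval_sub']
    simp only [MvPolynomial.eval_X]
    rfl
  beta_reduce
  rw [hP, coe_mapRingHom, eval_map, Polynomial.hom_eval₂, e, MvPolynomial.eval_X]
  rfl

theorem PolX.eq [Finite ι] {a : (ι → ℂ) → ℂ[X]} (h : PolX a) : Con fun w => a w = 0 :=
  (con_all (P := fun w (y : Unit → ℂ) => (a w).eval (y ()) = 0) h.ev.eq).congr fun w =>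
    ⟨fun k y => by rw [k, eval_zero], fun k => Polynomial.funext fun c => by
      rw [eval_zero]
      exact k fun _ => c⟩

theorem PolX.cop [Finite ι] {a b : (ι → ℂ) → ℂ[X]} (h : PolX a) (k : PolX b) :
    Con fun w => IsCoprime (a w) (b w) :=
  (con_all (P := fun w (y : Unit → ℂ) => (a w).eval (y ()) = 0 → (b w).eval (y ()) ≠ 0)
    (h.ev.eq.imp k.ev.ne)).congr fun w => by
      rw [Polynomial.isCoprime_iff_aeval_ne_zero_of_isAlgClosed (k := ℂ) ℂ]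
      simp only [coe_aeval_eq_eval]
      exact ⟨fun H y h0 => (H (y ())).resolve_left (not_not.2 h0),
        fun H c => or_iff_not_imp_left.2 fun h0 => H (fun _ => c) (not_not.1 h0)⟩

end

/-- The system of equations and the open conditions in degree `e`. -/
def Sys (e : ℕ) (νh : Fin 10 → ℂ) (νq : M10 ℂ) (x : Va → ℂ[X]) : Prop :=
  (∀ k, FF (C ∘ νh) (νq.map C) x k = 0) ∧ (GG (m3 (C ∘ νh) x) (xz x 0)).coeff (3 * e) ≠ 0 ∧
    IsCoprime (GG (m3 (C ∘ νh) x) (xz x 0)) (GG (m3 (C ∘ νh) x) (xz x 1)) ∧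
    IsCoprime (GG (m3 (C ∘ νh) x) (xz x 0))
      (G2 (xf x) (qS (νq.map C) (xr x) (xs x)) (m3 (C ∘ νh) x) (xz x 0)) ∧
    ¬ Gam (m3 (C ∘ νh) x) = 0 ∧ ¬ xf x 0 = 0

theorem data_of {e : ℕ} (he : Odd e) {νh : Fin 10 → ℂ} {νq : M10 ℂ} {x : Va → ℂ[X]}
    (hx : Dg (dV e) x) (H : Sys e νh νq x) :
    Data (hS νh ((xs x).coeff 0)) (qS νq ((xr x).coeff 0) ((xs x).coeff 0)) := by
  obtain ⟨hF, p1, p2, p3, p4, p5⟩ := H
  obtain ⟨r, σ, z, h1, h2, h3⟩ := main_const hx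
  have hc := con_of _ _ (funext hF)
  rw [h1, h2, h3, ← map_qS] at p3
  rw [h3, h3] at p2
  rw [h3] at p1
  rw [h1, h2, ← map_hS, ← map_qS] at hc
  rw [h1, h2, coeff_C_zero, coeff_C_zero]
  refine ⟨e, _, _, _, _, z, he, fun i => hx (.inl i), main_m3 νh hx, hc, fun j => ⟨C_injective ?_,
    C_injective ?_⟩, p1, p2, p3, p4, p5⟩
  · rw [C_0, RingHom.map_dotProduct, map_hS, primeb_map_pch, ← h2, ← h3]
    exact hF (.inr (.inr (j, 0)))
  · rw [C_0, map_bq, map_qS, primeb_map_pch, ← h1, ← h2, ← h3]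
    exact hF (.inr (.inr (j, 1)))

theorem persist' (νh : Fin 10 → ℂ) (νq : M10 ℂ) (n : ℕ) (g : ℂ[X][X])
    (hg : (g.coeff 0).eval (rn n) ≠ 0) :
    ∃ x : Va → ℂ[X], Dg (dV (2 * n + 1)) x ∧ (xs x).coeff 0 ≠ 0 ∧
      g.evalEval ((xr x).coeff 0) ((xs x).coeff 0) ≠ 0 ∧ Sys (2 * n + 1) νh νq x := by
  obtain ⟨f, l, hp, hl, h0, ho⟩ := curve n
  obtain ⟨b, c, d, hn, w1, w2, w3⟩ := wit_ex hp
  obtain ⟨x0, hb, rfl⟩ := base_ex (νh := νh) (νq := νq) hp hl h0 ho b hn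
  have hd := hb.dg
  have dG : ∀ j, ∀ x : Va → ℂ[X], Dg (dV (2 * n + 1)) x →
      (MvPolynomial.aeval x (uG νh j)).natDegree ≤ 3 * (2 * n + 1) := fun j x hx => by
    obtain ⟨r, σ, z, -, -, h3⟩ := main_const hx
    rw [ev_uG, h3]
    exact deg_GG (main_m3 νh hx) _
  have dG2 : ∀ x : Va → ℂ[X], Dg (dV (2 * n + 1)) x →
      (MvPolynomial.aeval x (uG2 νh νq)).natDegree ≤ 3 * (2 * n + 1) := fun x hx => by
    obtain ⟨r, σ, z, h1, h2, h3⟩ := main_const hx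
    rw [ev_uG2, h1, h2, h3, ← map_qS]
    exact deg_G2 (e := 2 * n + 1) (fun i => hx (.inl i)) (main_m3 νh hx) _ _
  have e1 : ∀ j, MvPolynomial.aeval x0 (uG νh j) = GG (n3 (xf x0)) (C ∘ wit b (c j) (d j)) :=
    fun j => by rw [ev_uG, m3_zero _ hb.s0, hb.z0]
  have e2 : MvPolynomial.aeval x0 (uG2 νh νq) =
      G2 (xf x0) q0 (n3 (xf x0)) (C ∘ wit b (c 0) (d 0)) := by
    rw [ev_uG2, m3_zero _ hb.s0, hb.z0, hb.s0, qS, zero_smul, add_zero]
  rw [← e1 0] at w1 w2 w3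
  rw [← e1 1] at w2
  rw [← e2] at w3
  have f0 := fun i => (hp.1 i).1
  have n1 := near_coeff hd _ _ w1
  have n2 := near_cop hd (uG νh 0) (uG νh 1) (by omega) (fun x hx => ⟨dG 0 x hx, dG 1 x hx⟩) w1 w2
  have n3 := near_cop hd (uG νh 0) (uG2 νh νq) (by omega) (fun x hx => ⟨dG 0 x hx, dG2 x hx⟩) w1 w3
  have n4 := near_ne hd (Gam (m3 (MvPolynomial.C ∘ νh) MvPolynomial.X)) (by
    rw [ev_Gam, m3_zero _ hb.s0, gam_n3]
    exact mul_ne_zero (mul_ne_zero (mul_ne_zero two_ne_zero (pow_ne_zero _ (f0 0)))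
      (pow_ne_zero _ (f0 1))) (f0 4))
  have n5 := near_ne hd (MvPolynomial.X (.inl 0)) (by rw [MvPolynomial.aeval_X]; exact f0 0)
  have n6 := near_ne hd _ (by
    rw [ev_g g _ vS x0 hb.r0 (hb.s0.trans C_0.symm)]
    rwa [C_ne_zero, evalEval, C_0, ← coeff_zero_eq_eval_zero])
  obtain ⟨x, hx, ⟨⟨⟨⟨⟨p1, p2⟩, p3⟩, p4⟩, p5⟩, p6⟩, hs, hF⟩ := ift_poly (dE (2 * n + 1))
    (FF (MvPolynomial.C ∘ νh) (νq.map MvPolynomial.C) MvPolynomial.X)
    (Red (MvPolynomial.C ∘ νh) (MvPolynomial.X ∘ Sum.inl) (MvPolynomial.X ∘ Sum.inr)) vS x0 rfl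
    hb.s0 hd (fun k => (aeval_FF x0 k).trans (congrFun hb.eq k))
    (fun x hx k => by simp only [aeval_FF]; exact dg_FF hx k)
    (fun x l => by simp only [aeval_FF, ev_Red]; exact congrFun (red_FF _ _ x) l)
    (fun y y' l => by simp only [ev_Red, red_add, Pi.add_apply])
    (fun x c y l => by
      rw [ev_Red, ev_Red, show c • y = (C c : ℂ[X]) • y from funext fun _ => smul_eq_C_mul _,
        red_smul, smul_eq_C_mul]
      rfl)
    (fun y hy h => by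
      obtain ⟨v, h1, h2, h3⟩ := surj hb hy (funext fun l => (ev_Red νh x0 y l).symm.trans (h l))
      exact ⟨v, h1, h2, fun k => by rw [aeval_FF]; exact congrFun h3 k⟩)
    (((((n1.and n2).and n3).and n4).and n5).and n6)
  obtain ⟨r, σ, z, h1, h2, h3⟩ := main_const hx
  rw [ev_g g _ vS x h1 h2, C_ne_zero] at p6
  rw [ev_uG, ev_uG2] at p3
  rw [ev_uG, ev_uG] at p2
  rw [ev_uG] at p1
  rw [ev_Gam] at p4
  rw [MvPolynomial.aeval_X] at p5
  refine ⟨x, hx, ?_, ?_, fun k => (aeval_FF x k).symm.trans (hF k), p1, p2, p3, p4, p5⟩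
  · rw [h2, coeff_C_zero]
    exact fun h => hs (h2.trans (by rw [h, C_0]))
  · rwa [h1, h2, coeff_C_zero, coeff_C_zero]

/-- Unknowns: the direction and the coefficients of the polynomials. -/
abbrev WW (e : ℕ) := Par ⊕ Ix (dV e)

section Univ

variable (e : ℕ)

noncomputable def Uh : Fin 10 → (PR (WW e))[X] := C ∘ hv (MvPolynomial.X ∘ Sum.inl)

noncomputable def Uq : M10 (PR (WW e))[X] := (qm (MvPolynomial.X ∘ Sum.inl)).map C

noncomputable def Ux (v : Va) : (PR (WW e))[X] :=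
  ∑ i : Fin (dV e v + 1), monomial i (MvPolynomial.X (Sum.inr ⟨v, i⟩))

variable {e} (w : WW e → ℂ)

theorem ev_Uh : mapRingHom (MvPolynomial.eval w) ∘ Uh e = C ∘ hv (w ∘ Sum.inl) := by
  funext i
  simp [Uh, hv]

theorem ev_Uq : (Uq e).map (mapRingHom (MvPolynomial.eval w)) = (qm (w ∘ Sum.inl)).map C := by
  ext1 i j
  simp [Uq, qm]

theorem ev_Ux : mapRingHom (MvPolynomial.eval w) ∘ Ux e = pv (dV e) (w ∘ Sum.inr) := by
  funext v
  simp [Ux, pv, Polynomial.map_sum]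

theorem ev_Um : (fun a => mapRingHom (MvPolynomial.eval w) ∘ m3 (Uh e) (Ux e) a) =
    m3 (C ∘ hv (w ∘ Sum.inl)) (pv (dV e) (w ∘ Sum.inr)) := by
  rw [map_m3, ev_Uh, ev_Ux]

end Univ

theorem polX_x {e : ℕ} (v : Va) : PolX fun w : WW e → ℂ => pv (dV e) (w ∘ Sum.inr) v :=
  ⟨Ux e v, fun w => (congrFun (ev_Ux w) v).symm⟩

theorem con_sys (e : ℕ) : Con fun w : WW e → ℂ =>
    Sys e (hv (w ∘ Sum.inl)) (qm (w ∘ Sum.inl)) (pv (dV e) (w ∘ Sum.inr)) := by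
  have z : ∀ (w : WW e → ℂ) j, mapRingHom (MvPolynomial.eval w) ∘ xz (Ux e) j =
      xz (pv (dV e) (w ∘ Sum.inr)) j := fun w j => by
    rw [← ev_Ux]
    rfl
  have c1 : ∀ j, PolX fun w : WW e → ℂ =>
      GG (m3 (C ∘ hv (w ∘ Sum.inl)) (pv (dV e) (w ∘ Sum.inr))) (xz (pv (dV e) (w ∘ Sum.inr)) j) :=
    fun j => ⟨GG (m3 (Uh e) (Ux e)) (xz (Ux e) j), fun w => by rw [map_GG, ev_Um, z]⟩
  refine (con_fin fun k => PolX.eq ⟨FF (Uh e) (Uq e) (Ux e) k, fun w => ?_⟩).and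
    (((c1 0).coeff _).ne.and (((c1 0).cop (c1 1)).and (((c1 0).cop
      ⟨G2 (xf (Ux e)) (qS (Uq e) (xr (Ux e)) (xs (Ux e))) (m3 (Uh e) (Ux e)) (xz (Ux e) 0),
        fun w => ?_⟩).and ((PolX.eq ⟨Gam (m3 (Uh e) (Ux e)), fun w => ?_⟩).not.and
          (polX_x _).eq.not))))
  · have h := map_FF (mapRingHom (MvPolynomial.eval w)) (Uh e) (Uq e) (Ux e)
    rw [ev_Uh, ev_Uq, ev_Ux] at h
    exact (congrFun h k).symm
  · rw [map_G2, ev_Um, z, map_qS, ev_Uq, ← ev_Ux]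
    rfl
  · rw [map_Gam, ev_Um]

/-- The point of the parameter space with direction `N` and coordinates `ρ, τ`. -/
def zz {A : Type} [CommRing A] (N : Par → A) (ρ τ : A) : Par → A :=
  mkP (hS (hv N) τ) (qS (qm N) ρ τ)

theorem map_zz {A B : Type} [CommRing A] [CommRing B] (Ψ : A →+* B) (N : Par → A) (ρ τ : A) :
    Ψ ∘ zz N ρ τ = zz (Ψ ∘ N) (Ψ ρ) (Ψ τ) := by
  rw [zz, map_mkP, map_hS, map_qS, map_hv, map_qm, zz]

theorem ev_zz {A : Type} [CommRing A] (Ψ : A →+* ℂ) (c : ℂ →+* A) (hc : ∀ a, Ψ (c a) = a)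
    (N : Par → A) (ρ τ : A) (f : PR Par) :
    Ψ (MvPolynomial.eval₂ c (zz N ρ τ) f) = MvPolynomial.eval (zz (Ψ ∘ N) (Ψ ρ) (Ψ τ)) f := by
  rw [MvPolynomial.eval₂_comp_left, map_zz, show Ψ.comp c = RingHom.id ℂ from RingHom.ext hc]
  rfl

theorem zz_onto (t : Par → ℂ) : ∃ ν, zz ν 0 1 = t :=
  ⟨mkP (hv t - (ell 1 + ell 2)) (qm t - q0 - qb 0), by
    rw [zz, hv_mkP, qm_mkP]
    conv_rhs => rw [← mkP_self t]
    simp [hS, qS, q1]⟩

/-- The coordinate in which `ρ` occurs. -/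
def s1 : Par := Sum.inr (ee 4, ee 7)

theorem zz_off (ν : Par → ℂ) (r σ : ℂ) (i : Par) (hi : i ≠ s1) : zz ν r σ i = zz ν 0 σ i := by
  rcases i with s | ⟨s, s'⟩
  · rfl
  · have k : ∀ a b : Fin 10, ¬ (a = 4 ∧ b = 7) → (ev2 4 0 : M10 ℂ) a b = 0 := fun a b h => by
      fin_cases a <;> fin_cases b <;> simp [ev2, edg, vecMulVec] at h ⊢
    have k' := k (ei s) (ei s') fun h => hi (by rw [s1, ← h.1, ← h.2, ee_ei, ee_ei])
    change qS (qm ν) r σ (ei s) (ei s') = qS (qm ν) 0 σ (ei s) (ei s')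
    simp only [qS, q1, qb, Matrix.add_apply, Matrix.smul_apply, k', smul_zero]

theorem fac {A : Type} [CommRing A] (p : A[X]) (hp : p ≠ 0) :
    ∃ (k : ℕ) (q : A[X]), p = X ^ k * q ∧ q.coeff 0 ≠ 0 := by
  obtain ⟨q, h1, h2⟩ := exists_eq_pow_rootMultiplicity_mul_and_not_dvd p hp 0
  rw [C_0, sub_zero] at h1 h2
  exact ⟨_, q, h1, fun h => h2 (X_dvd_iff.2 h)⟩

theorem ex_ne {f : PR Par} (hf : f ≠ 0) : ∃ t, MvPolynomial.eval t f ≠ 0 := by
  by_contra! h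
  exact hf (MvPolynomial.funext fun t => by rw [h, map_zero])

/-- The polynomial `f` on the surface with the generic direction. -/
noncomputable def gU (f : PR Par) : (PR Par)[X][X] :=
  MvPolynomial.eval₂ (C.comp (C.comp MvPolynomial.C)) (zz (C ∘ C ∘ MvPolynomial.X) (C X) X) f

/-- The polynomial `f` on the curve `ρ = 0` with the generic direction. -/
noncomputable def uU (f : PR Par) : (PR Par)[X] :=
  MvPolynomial.eval₂ (C.comp MvPolynomial.C) (zz (C ∘ MvPolynomial.X) 0 X) f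

theorem ev_gU (f : PR Par) (ν : Par → ℂ) (r σ : ℂ) :
    ((gU f).map (mapRingHom (MvPolynomial.eval ν))).evalEval r σ =
      MvPolynomial.eval (zz ν r σ) f := by
  have := ev_zz (A := (PR Par)[X][X])
    ((evalEvalRingHom r σ).comp (mapRingHom (mapRingHom (MvPolynomial.eval ν))))
    (C.comp (C.comp MvPolynomial.C)) (fun a => by simp) (C ∘ C ∘ MvPolynomial.X) (C X) X f
  refine this.trans ?_
  simp [Function.comp_def]

theorem ev_uU (f : PR Par) (ν : Par → ℂ) (σ : ℂ) :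
    ((uU f).map (MvPolynomial.eval ν)).eval σ = MvPolynomial.eval (zz ν 0 σ) f := by
  have := ev_zz ((evalRingHom σ).comp (mapRingHom (MvPolynomial.eval ν)))
    (C.comp MvPolynomial.C) (fun a => by simp) (C ∘ MvPolynomial.X) 0 X f
  refine this.trans ?_
  simp [Function.comp_def]

theorem gU_ne {f : PR Par} (hf : f ≠ 0) : gU f ≠ 0 := fun h => by
  obtain ⟨t, ht⟩ := ex_ne hf
  obtain ⟨ν, rfl⟩ := zz_onto t
  rw [← ev_gU, h, Polynomial.map_zero, evalEval_zero] at ht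
  exact ht rfl

theorem uU_ne {f : PR Par} (hf : f ≠ 0) : uU f ≠ 0 := fun h => by
  obtain ⟨t, ht⟩ := ex_ne hf
  obtain ⟨ν, rfl⟩ := zz_onto t
  rw [← ev_uU, h, Polynomial.map_zero, eval_zero] at ht
  exact ht rfl

/-- The parameters with a solution of the system in degree `e`. -/
def GE (e : ℕ) (t : Par → ℂ) : Prop :=
  ∃ w : WW e → ℂ, Sys e (hv (w ∘ Sum.inl)) (qm (w ∘ Sum.inl)) (pv (dV e) (w ∘ Sum.inr)) ∧
    zz (w ∘ Sum.inl) ((xr (pv (dV e) (w ∘ Sum.inr))).coeff 0)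
      ((xs (pv (dV e) (w ∘ Sum.inr))).coeff 0) = t

theorem con_GE (e : ℕ) : Con (GE e) := by
  refine (con_sys e).img fun s => ?_
  obtain ⟨ρ, hρ⟩ := (polX_x (e := e) (.inr (.inr (.inr (.inl ()))))).coeff 0
  obtain ⟨τ, hτ⟩ := (polX_x (e := e) vS).coeff 0
  refine ⟨zz (MvPolynomial.X ∘ Sum.inl) ρ τ s, fun w => ?_⟩
  have h := map_zz (MvPolynomial.eval w) (MvPolynomial.X ∘ Sum.inl) ρ τ
  rw [← hρ, ← hτ, show MvPolynomial.eval w ∘ (MvPolynomial.X ∘ Sum.inl : Par → PR (WW e)) =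
    w ∘ Sum.inl from funext fun i => MvPolynomial.eval_X _] at h
  exact (congrFun h s).symm

theorem data_GE {e : ℕ} (he : Odd e) {t : Par → ℂ} (h : GE e t) : Data (hv t) (qm t) := by
  obtain ⟨w, h1, rfl⟩ := h
  rw [zz, hv_mkP, qm_mkP]
  exact data_of he (dg_pv _) h1

theorem dense_GE {f : PR Par} (hf : f ≠ 0) : ∃ n : ℕ, ∀ f' : PR Par, f' ≠ 0 →
    ∃ y, MvPolynomial.eval y f' ≠ 0 ∧ ∃ z, (GE (2 * n + 1) z ∧ MvPolynomial.eval z f ≠ 0) ∧
      ∀ i, i ≠ s1 → z i = y i := by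
  obtain ⟨k, g', h1, h2⟩ := fac _ (gU_ne hf)
  obtain ⟨n, hn⟩ : ∃ n, (g'.coeff 0).eval (MvPolynomial.C (rn n)) ≠ 0 := by
    by_contra! h
    exact h2 (eq_zero_of_infinite_isRoot _ ((Set.infinite_range_of_injective
      ((MvPolynomial.C_injective Par ℂ).comp rn_inj)).mono (by rintro _ ⟨n, rfl⟩; exact h n)))
  refine ⟨n, fun f' hf' => ?_⟩
  obtain ⟨j, u', k1, k2⟩ := fac _ (uU_ne hf')
  obtain ⟨ν, hν⟩ := ex_ne (mul_ne_zero hn k2)
  obtain ⟨x, hx, x1, x2, x3⟩ := persist' (hv ν) (qm ν) n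
    (g'.map (mapRingHom (MvPolynomial.eval ν)) * (u'.map (MvPolynomial.eval ν)).map C) (by
      rw [mul_coeff_zero, coeff_map, coeff_map, coeff_map, eval_mul, eval_C, coe_mapRingHom]
      rw [map_mul, ← eval₂_at_apply, ← eval_map, MvPolynomial.eval_C] at hν
      exact hν)
  rw [evalEval_mul, evalEval_map_C] at x2
  refine ⟨zz ν 0 ((xs x).coeff 0), ?_, zz ν ((xr x).coeff 0) ((xs x).coeff 0),
    ⟨⟨Sum.elim ν (cf _ x), ?_⟩, ?_⟩, zz_off _ _ _⟩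
  · rw [← ev_uU, k1, Polynomial.map_mul, Polynomial.map_pow, map_X, eval_mul, eval_pow, eval_X]
    exact mul_ne_zero (pow_ne_zero _ x1) (right_ne_zero_of_mul x2)
  · rw [Sum.elim_comp_inl, Sum.elim_comp_inr, pv_cf hx]
    exact ⟨x3, rfl⟩
  · rw [← ev_gU, h1, Polynomial.map_mul, Polynomial.map_pow, map_X, evalEval_mul, evalEval_pow,
      evalEval_X]
    exact mul_ne_zero (pow_ne_zero _ x1) (left_ne_zero_of_mul x2)

theorem odd_main (f : PR Par) (hf : f ≠ 0) : ∃ F g : PR Par, Irreducible F ∧ ¬ F ∣ f * g ∧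
    ∀ t, MvPolynomial.eval t F = 0 → MvPolynomial.eval t g ≠ 0 →
      IsSmoothGM t ∧ (JN (hv t) (qm t)).IsPrime ∧ OddN (hv t) (qm t) := by
  obtain ⟨g0, hg, hs⟩ := sm_poly
  obtain ⟨n, hn⟩ := dense_GE (mul_ne_zero hf hg)
  obtain ⟨F, g, h1, h2, h3⟩ := divisor ((con_GE (2 * n + 1)).and
    (Pol.ne (f := fun z => MvPolynomial.eval z (f * g0)) ⟨f * g0, fun _ => rfl⟩)) s1 hn
  have hp : Prime F := h1.prime
  refine ⟨F, g, h1, fun k => ?_, fun t k1 k2 => ?_⟩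
  · obtain ⟨r, hr⟩ := (hp.dvd_or_dvd k).resolve_right h2
    obtain ⟨x, x1, x2⟩ := exists_pt ⟨Ideal.span {F}, (Ideal.span_singleton_prime hp.ne_zero).2 hp⟩
      (g := g) fun k => h2 (Ideal.mem_span_singleton.1 k)
    have x3 := (mem_pt x F).1 (x1 (Ideal.mem_span_singleton_self F))
    apply (h3 x x3 x2).2
    rw [hr, map_mul, map_mul, x3, zero_mul, zero_mul]
  · obtain ⟨a1, a2⟩ := h3 t k1 k2
    rw [map_mul] at a2
    obtain ⟨b1, b2⟩ := hs t (right_ne_zero_of_mul a2)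
    exact ⟨(smooth_iff t).2 b1, b2, odd_of_data b2 (data_GE (odd_two_mul_add_one n) a1)⟩

end Pool.Agent.GMDiv
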