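import Pool.Agent.Work.MP_274aea_ag.Reduce
import Pool.Agent.Work.MP_274aea_ag_Div.Chev

set_option autoImplicit false

open MvPolynomial Matrix Pool.Agent.GM16

namespace Pool.Agent.GMDiv

/-- Solutions of the balanced system off the special family, in a fixed degree. -/
theorem sc_family (k : ℕ) (b : ℂ) (hb : b ^ (2 * (k + 1) + 1) = cst (k + 1)) (η : Th → ℂ)
    (g : Polynomial (Polynomial ℂ)) (hgb : (g.coeff 0).eval b ≠ 0) :
    ∃ (b e : ℂ) (v w : Fin 4 → S4) (Q : S4), e ≠ 0 ∧ b ≠ 1 ∧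
      (g.eval (Polynomial.C e)).eval b ≠ 0 ∧
      (∀ a, (v a).IsHomogeneous (3 * k + 4)) ∧ (∀ a, (w a).IsHomogeneous (3 * k + 3)) ∧
      Q.IsHomogeneous (2 * (3 * k + 2) + 1) ∧
      pol (Nf (fun s => C (η s)) (C b) (C e) X) (qf (fun s => C (η s)) (C b) (C e) X) v w v w =
        (qf (fun s => C (η s)) (C b) (C e) X ^ 2 - (Nf (fun s => C (η s)) (C b) (C e) X).det) * Q ∧
      zv v w ≠ 0 := by
  classical
  obtain ⟨hb0, hb1⟩ := cst_ne hb
  obtain ⟨v0, w0, hv0, hw0, ⟨η0, hη0⟩, hz, hrig⟩ := special k b hb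
  obtain ⟨a0, ha0⟩ := Function.ne_iff.mp hz
  have hη : η0.IsHomogeneous (2 * (3 * k + 2) + 1) := by
    have := pol_hom _ _ (Ns_hom b) (qs_hom b) v0 w0 v0 w0 hv0 hw0 hv0 hw0
    rw [hη0] at this
    exact (hom_quot (G_hom b) (G_ne hb0) this).1
  obtain ⟨n, u, hn, hu⟩ := slice (relMap b (3 * k + 1))
    (fun a => ⟨v0 a, hv0 a⟩, fun a => ⟨w0 a, hw0 a⟩)
  let e := Module.finBasis ℂ (homogeneousSubmodule (Fin 4) ℂ (2 * (3 * k + 2) + 1))
  set m := Module.finrank ℂ (homogeneousSubmodule (Fin 4) ℂ (2 * (3 * k + 2) + 1)) with hm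
  let u1 : Fin 4 → Fin n → S4 := fun a i => (u i).1 a
  let u2 : Fin 4 → Fin n → S4 := fun a i => (u i).2 a
  let u3 : Fin m → S4 := fun i => e i
  let ι := ((Finset.univ : Finset (Fin 4)).finsuppAntidiag (2 * (3 * k + 2) + 5) : Type)
  let Fq : ι → MvPolynomial (Fin 2 ⊕ (Fin n ⊕ Fin m)) ℂ := fun μ =>
    coeff μ.1 (Eqn η v0 w0 η0 u1 u2 u3 X)
  have hF : ∀ (R : Type) [CommRing R] [Algebra ℂ R] (x : Fin 2 ⊕ (Fin n ⊕ Fin m) → R),
      (∀ μ, aeval x (Fq μ) = 0) ↔ Eqn η v0 w0 η0 u1 u2 u3 x = 0 := by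
    intro R _ _ x
    have h1 : ∀ μ : ι, aeval x (Fq μ) = coeff μ.1 (Eqn η v0 w0 η0 u1 u2 u3 x) := by
      intro μ
      have := congrArg (coeff μ.1) (map_Eqn (aeval x) η v0 w0 η0 u1 u2 u3 X)
      rw [coeff_map] at this
      simpa using this
    simp only [h1]
    refine ⟨fun h => ?_, fun h μ => by rw [h, coeff_zero]⟩
    ext μ
    by_cases hμ : μ.degree = 2 * (3 * k + 2) + 5
    · exact h ⟨μ, (mem_mon μ).mpr hμ⟩
    · exact (Eqn_hom η (j := 3 * k + 2) hv0 hw0 hη (fun a i => ((u i).1 a).2)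
        (fun a i => ((u i).2 a).2) (fun i => (e i).2) x).coeff_eq_zero hμ
  let hh : MvPolynomial (Fin 2 ⊕ (Fin n ⊕ Fin m)) ℂ :=
    g.eval₂ (Polynomial.aeval (X (Sum.inl 1))).toRingHom (X (Sum.inl 0)) * (1 - X (Sum.inl 1)) *
      zr (fun a => vx (v0 a) (u1 a) fun i => X (Sum.inr (Sum.inl i)))
        (fun a => vx (w0 a) (u2 a) fun i => X (Sum.inr (Sum.inl i))) a0
  have hzr : ∀ (R : Type) [CommRing R] [Algebra ℂ R] (x : Fin 2 ⊕ (Fin n ⊕ Fin m) → R),
      aeval x (zr (fun a => vx (v0 a) (u1 a) fun i => X (Sum.inr (Sum.inl i)))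
        (fun a => vx (w0 a) (u2 a) fun i => X (Sum.inr (Sum.inl i))) a0 :
          MvPolynomial (Fin 2 ⊕ (Fin n ⊕ Fin m)) ℂ) =
        zr (fun a => vx (v0 a) (u1 a) fun i => x (Sum.inr (Sum.inl i)))
          (fun a => vx (w0 a) (u2 a) fun i => x (Sum.inr (Sum.inl i))) a0 := by
    intro R _ _ x
    have := map_zr ((aeval x : MvPolynomial (Fin 2 ⊕ (Fin n ⊕ Fin m)) ℂ →ₐ[ℂ] R) :
        MvPolynomial (Fin 2 ⊕ (Fin n ⊕ Fin m)) ℂ →+* R)
      (fun a => vx (v0 a) (u1 a) fun i => X (Sum.inr (Sum.inl i)))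
      (fun a => vx (w0 a) (u2 a) fun i => X (Sum.inr (Sum.inl i))) a0
    simpa only [map_vx, aeval_X, RingHom.coe_coe] using this
  have hev : ∀ x : Fin 2 ⊕ (Fin n ⊕ Fin m) → ℂ, eval x hh =
      (g.eval (Polynomial.C (x (Sum.inl 0)))).eval (x (Sum.inl 1)) * (1 - x (Sum.inl 1)) *
        zr (fun a => vx (v0 a) (u1 a) fun i => x (Sum.inr (Sum.inl i)))
          (fun a => vx (w0 a) (u2 a) fun i => x (Sum.inr (Sum.inl i))) a0 := by
    intro x
    rw [← hzr, aeval_eq_eval]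
    simp only [hh, map_mul, map_sub, map_one, eval_X]
    congr 2
    rw [Polynomial.hom_eval₂, ← Polynomial.coe_evalRingHom, ← Polynomial.eval₂_id,
      Polynomial.hom_eval₂]
    congr 1
    · ext <;> simp
    · simp
  let p : Fin 2 ⊕ (Fin n ⊕ Fin m) → ℂ := Sum.elim ![0, b] 0
  obtain ⟨x, hx, hxe, hxh⟩ := persist Fq (by
      have h1 : Fintype.card ι = (2 * (3 * k + 2) + 5 + 3).choose 3 := by
        rw [← card_mon 3]
        exact Fintype.card_coe _
      have h2 : m = (2 * (3 * k + 2) + 1 + 3).choose 3 := finrank_hom 3 _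
      simp only [Module.finrank_prod, finrank_HH] at hn
      simp only [h1, Fintype.card_sum, Fintype.card_fin]
      have e1 := six_choose (6 * k + 10)
      have e2 := six_choose (6 * k + 6)
      have e3 := six_choose (3 * k + 5)
      have e4 := six_choose (3 * k + 4)
      have e5 := six_choose (3 * k + 3)
      have e6 := six_choose (3 * k + 2)
      rw [show 2 * (3 * k + 2) + 5 + 3 = 6 * k + 10 + 2 by ring]
      rw [show 2 * (3 * k + 2) + 1 + 3 = 6 * k + 6 + 2 by ring] at h2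
      rw [show 3 * k + 1 + 3 + 3 = 3 * k + 5 + 2 by ring,
        show 3 * k + 1 + 2 + 3 = 3 * k + 4 + 2 by ring,
        show 3 * k + 1 + 1 + 3 = 3 * k + 3 + 2 by ring,
        show 3 * k + 1 + 3 = 3 * k + 2 + 2 by ring] at hn
      nlinarith) p
    (fun μ => by
      rw [← aeval_eq_eval]
      refine (hF ℂ p).mpr ?_ μ
      rw [Eqn_special η v0 w0 η0 u1 u2 u3 p b 0 (by simp) 0 0 rfl rfl (by simp [p]) (by simp [p])
        hη0, map_zero, zero_mul])
    (Sum.inl 0) (Sum.inl 1) rfl hh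
    (by
      rw [hev]
      refine mul_ne_zero (mul_ne_zero ?_ (sub_ne_zero.mpr hb1.symm)) ?_
      · simpa [p, ← Polynomial.coeff_zero_eq_eval_zero] using hgb
      · have : zr v0 w0 a0 ≠ 0 := ha0
        simpa [p, vx, MvPolynomial.map_id] using this)
    (fun E _ _ x hx hxe hxh => by
      by_contra htr
      have h1 := (hF E x).mp hx
      rw [Eqn, hxe, map_zero, Nf_zero, qf_zero, sub_eq_zero] at h1
      have h2 := trans_zv (j := 3 * k + 3) htr _ _
        (fun a => vx_hom (hv0 a) (fun i => ((u i).1 a).2) _)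
        (fun a => vx_hom (hw0 a) (fun i => ((u i).2 a).2) _) ⟨_, h1⟩
      apply hxh
      simp only [hh, map_mul, hzr]
      exact mul_eq_zero_of_right _ (congrFun h2 a0))
    (fun δ h0 h1 hδ => by
      have h2 := (hF _ _).mp hδ
      rw [Eqn_special η v0 w0 η0 u1 u2 u3 _ b DualNumber.eps DualNumber.eps_mul_eps
        (fun i => δ (Sum.inr (Sum.inl i))) (fun i => δ (Sum.inr (Sum.inr i))) (by simp [p, h0])
        (by simp [p, h1, TrivSqZeroExt.algebraMap_eq_inl])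
        (fun i => by ext <;> simp [p, TrivSqZeroExt.algebraMap_eq_inl])
        (fun i => by ext <;> simp [p, TrivSqZeroExt.algebraMap_eq_inl]) hη0] at h2
      have h3 : 2 * pol (Ns (C b) X) (qs (C b) X) v0 w0 (fun a => ∑ i, δ (Sum.inr (Sum.inl i)) • u1 a i)
          (fun a => ∑ i, δ (Sum.inr (Sum.inl i)) • u2 a i) -
          (qs (C b) X ^ 2 - (Ns (C b) X).det) * ∑ i, δ (Sum.inr (Sum.inr i)) • u3 i = 0 := by
        ext μ
        have := congrArg (fun z => (coeff μ z).snd) h2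
        simpa only [coeff_C_mul, coeff_map, coeff_zero, TrivSqZeroExt.snd_zero,
          TrivSqZeroExt.snd_mul, DualNumber.fst_eps, DualNumber.snd_eps, zero_smul, zero_add,
          TrivSqZeroExt.algebraMap_eq_inl, TrivSqZeroExt.fst_inl, MulOpposite.smul_eq_mul_unop,
          MulOpposite.unop_op, one_mul] using this
      have h4 : IsUnit (2 : S4) := by
        simpa [map_ofNat] using (IsUnit.mk0 (2 : ℂ) two_ne_zero).map (C : ℂ →+* S4)
      obtain ⟨c, y, y', hy, hy', e1, e2⟩ := hrig _ _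
        (fun a => Submodule.sum_mem (homogeneousSubmodule (Fin 4) ℂ _) fun i _ =>
          Submodule.smul_mem _ _ ((u i).1 a).2)
        (fun a => Submodule.sum_mem (homogeneousSubmodule (Fin 4) ℂ _) fun i _ =>
          Submodule.smul_mem _ _ ((u i).2 a).2)
        (h4.dvd_mul_left.mp ⟨_, sub_eq_zero.mp h3⟩)
      have h5 := hu (fun i => δ (Sum.inr (Sum.inl i))) c (fun a => ⟨y a, hy a⟩, fun a => ⟨y' a, hy' a⟩)
        (by
          refine Prod.ext (funext fun a => Subtype.ext ?_) (funext fun a => Subtype.ext ?_)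
          · have := congrFun (sub_eq_iff_eq_add'.mp e1) a
            simpa [Prod.fst_sum, relMap, smul_eq_C_mul, u1] using this
          · have := congrFun (sub_eq_iff_eq_add'.mp e2) a
            simpa [Prod.snd_sum, relMap, smul_eq_C_mul, u2] using this)
      have h6 : ∀ i, δ (Sum.inr (Sum.inl i)) = 0 := congrFun h5
      simp only [h6, zero_smul, Finset.sum_const_zero] at h3
      have h7 : ∑ i, δ (Sum.inr (Sum.inr i)) • e i = 0 := by
        apply Subtype.ext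
        have h8 : pol (Ns (C b) X) (qs (C b) X) v0 w0 (fun _ => 0) (fun _ => (0 : S4)) = 0 := by
          simp [pol, dotProduct, Matrix.mulVec]
        rw [h8, mul_zero, zero_sub, neg_eq_zero] at h3
        simpa [u3] using (mul_eq_zero.mp h3).resolve_left (G_ne hb0)
      have h9 := Fintype.linearIndependent_iff.mp e.linearIndependent _ h7
      ext s
      rcases s with s | s | s
      · fin_cases s
        exacts [h0, h1]
      · exact h6 s
      · exact h9 s)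
  rw [hev] at hxh
  have h1 := (hF ℂ x).mp (by simpa only [aeval_eq_eval] using hx)
  rw [Eqn, sub_eq_zero] at h1
  refine ⟨x (Sum.inl 1), x (Sum.inl 0), _, _, _, hxe, ?_, ?_,
    fun a => vx_hom (hv0 a) (fun i => ((u i).1 a).2) _,
    fun a => vx_hom (hw0 a) (fun i => ((u i).2 a).2) _, vx_hom hη (fun i => (e i).2) _, h1,
    fun h => ?_⟩
  · exact (sub_ne_zero.mp (right_ne_zero_of_mul (left_ne_zero_of_mul hxh))).symm
  · exact left_ne_zero_of_mul (left_ne_zero_of_mul hxh)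
  · exact right_ne_zero_of_mul hxh (congrFun h a0)

theorem sc_normal : ∃ g : MvPolynomial Th ℂ, g ≠ 0 ∧ ∀ θ, eval θ g ≠ 0 → IsoS θ →
    SmoothN θ ∧ (Jn θ).IsPrime ∧ Nonempty (FractionRing (MvPolynomial (Fin 6) ℂ ⧸ Jn θ) ≃ₐ[ℂ]
      FractionRing (MvPolynomial (Fin 4) ℂ)) := by
  obtain ⟨g1, n1, h1⟩ := smooth_open
  obtain ⟨g2, n2, h2⟩ := prime_open
  obtain ⟨g3, n3, h3⟩ := irr_open
  obtain ⟨g4, n4, h4⟩ := iso_open
  refine ⟨g1 * g2 * g3 * g4, mul_ne_zero (mul_ne_zero (mul_ne_zero n1 n2) n3) n4,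
    fun θ hθ hiso => ?_⟩
  simp only [map_mul, mul_ne_zero_iff] at hθ
  obtain ⟨⟨⟨e1, e2⟩, e3⟩, e4⟩ := hθ
  obtain ⟨hp, htr⟩ := h2 θ e2
  obtain ⟨hν, hirr⟩ := h3 θ e3
  obtain ⟨z, hz, hN⟩ := h4 θ e4 hiso
  haveI : Fact (∀ r : K2, r ^ 2 ≠ ka + kb * r) := ⟨fact_ab⟩
  obtain ⟨x, hx, hx1, hx2⟩ := kpoint ka kb _ hν hirr z hz hN
  obtain ⟨Y, hH, hQ, hgen⟩ := param ka kb _ hν hirr x hx hx1 hx2
  obtain ⟨e⟩ := omega_equiv
  refine ⟨h1 θ e1, hp, ?_⟩
  haveI := hp
  let ψ : MvPolynomial (Fin 6) ℂ →ₐ[ℂ] FractionRing (MvPolynomial (Fin 2) K2) := aeval Y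
  have hC : ∀ c : ℂ, ψ (C c) = algebraMap K2 _ (algebraMap ℂ K2 c) := fun c => by
    rw [algHom_C, IsScalarTower.algebraMap_apply ℂ K2]
  have hg : (fun k => ψ (gch X k)) = gch Y := funext fun k => by
    rw [map_gch]
    simp [ψ]
  have hker : ∀ a ∈ Jn θ, ψ a = 0 := by
    intro a ha
    refine (Ideal.span_le (I := RingHom.ker ψ.toRingHom)).mpr ?_ ha
    rintro _ (rfl | rfl)
    · change ψ _ = 0
      rw [map_Hn, hg, ← hH]
      simp only [hC]
    · change ψ _ = 0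
      rw [map_Qn, hg, ← hQ]
      simp only [hC]
  refine frac_equiv (Ideal.Quotient.liftₐ (Jn θ) ψ hker) htr e fun T hT => ?_
  have hT' : ∀ a, ψ a ∈ T := fun a => hT (Ideal.Quotient.mk _ a)
  obtain ⟨ha, hb, htop⟩ := hgen T fun i => by simpa [ψ] using hT' (X i)
  exact htop (K2_gen (algebraMap K2 _) T (fun c => hC c ▸ hT' (C c)) ha hb)

end Pool.Agent.GMDiv
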