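import Pool.Agent.Work.MP_274aea_ag_Div.ScA

set_option autoImplicit false

open MvPolynomial Matrix Pool.Agent.GM16

namespace Pool.Agent.GMDiv

/-- Rational functions whose denominators are powers of `u`. -/
def RatPol {ι : Type} (u f : (ι → ℂ) → ℂ) : Prop :=
  ∃ (p : PR ι) (N : ℕ), ∀ x, u x ≠ 0 → f x * u x ^ N = eval x p

section
variable {ι κ : Type} {u f g : (ι → ℂ) → ℂ}

theorem Pol.rat (h : Pol f) : RatPol u f := by
  obtain ⟨p, hp⟩ := h
  exact ⟨p, 0, fun x _ => by rw [pow_zero, mul_one, hp]⟩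

theorem RatPol.mul (h : RatPol u f) (k : RatPol u g) : RatPol u fun x => f x * g x := by
  obtain ⟨p, N, hp⟩ := h
  obtain ⟨q, M, hq⟩ := k
  exact ⟨p * q, N + M, fun x hx => by
    rw [map_mul, ← hp x hx, ← hq x hx]
    ring⟩

theorem RatPol.add (hu : Pol u) (h : RatPol u f) (k : RatPol u g) :
    RatPol u fun x => f x + g x := by
  obtain ⟨U, hU⟩ := hu
  obtain ⟨p, N, hp⟩ := h
  obtain ⟨q, M, hq⟩ := k
  exact ⟨p * U ^ M + q * U ^ N, N + M, fun x hx => by
    rw [map_add, map_mul, map_mul, map_pow, map_pow, ← hp x hx, ← hq x hx, ← hU]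
    ring⟩

theorem sc_inv (hg : Pol g) (h : ∀ x, u x = f x * g x) : RatPol u fun x => (f x)⁻¹ := by
  obtain ⟨q, hq⟩ := hg
  exact ⟨q, 1, fun x hx => by
    rw [h] at hx
    rw [pow_one, h, ← hq, inv_mul_cancel_left₀ (left_ne_zero_of_mul hx)]⟩

theorem sc_ev (hu : Pol u) {φ : (ι → ℂ) → κ → ℂ} (hφ : ∀ k, RatPol u fun x => φ x k) (p : PR κ) :
    RatPol u fun x => eval (φ x) p := by
  induction p using MvPolynomial.induction_on with
  | C a => simpa only [eval_C] using (pol_C a).rat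
  | add p q hp hq => simpa only [map_add] using hp.add hu hq
  | mul_X p k hp => simpa only [map_mul, eval_X] using hp.mul (hφ k)

theorem sc_polev {φ : (ι → ℂ) → κ → ℂ} (hφ : ∀ k, Pol fun x => φ x k) (p : PR κ) :
    Pol fun x => eval (φ x) p := by
  choose ψ hψ using hφ
  exact ⟨sub ψ p, fun x => by
    rw [eval_sub']
    exact congrArg (fun y => eval y p) (funext fun k => hψ k x)⟩

theorem sc_ex {p : PR ι} (hp : p ≠ 0) : ∃ t, eval t p ≠ 0 := by
  by_contra! h
  exact hp (MvPolynomial.funext fun t => by rw [h, map_zero])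

theorem sc_zero [Finite ι] (P : MvPolynomial (Fin 4) (PR ι)) :
    Con fun w : ι → ℂ => map (eval w) P = 0 :=
  (con_fin fun μ : P.support =>
    Pol.eq (f := fun w : ι → ℂ => eval w (coeff μ.1 P)) ⟨_, fun _ => rfl⟩).congr fun w =>
      ⟨fun h μ => by rw [← coeff_map, h, coeff_zero], fun h => by
        ext μ
        rw [coeff_map, coeff_zero]
        by_cases k : μ ∈ P.support
        · exact h ⟨μ, k⟩
        · rw [notMem_support_iff.1 k, map_zero]⟩

theorem sc_pt [Finite ι] {F g : PR ι} (h1 : Irreducible F) (h2 : ¬ F ∣ g) :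
    ∃ x, eval x F = 0 ∧ eval x g ≠ 0 := by
  have hp : Prime F := h1.prime
  obtain ⟨x, x1, x2⟩ := exists_pt ⟨Ideal.span {F}, (Ideal.span_singleton_prime hp.ne_zero).2 hp⟩
    (g := g) fun k => h2 (Ideal.mem_span_singleton.1 k)
  exact ⟨x, (mem_pt x F).1 (x1 (Ideal.mem_span_singleton_self F)), x2⟩

end

theorem sc_fac {A : Type} [CommRing A] (p : Polynomial A) (hp : p ≠ 0) :
    ∃ (k : ℕ) (q : Polynomial A), p = Polynomial.X ^ k * q ∧ q.coeff 0 ≠ 0 := by
  obtain ⟨q, h1, h2⟩ := Polynomial.exists_eq_pow_rootMultiplicity_mul_and_not_dvd p hp 0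
  rw [Polynomial.C_0, sub_zero] at h1 h2
  exact ⟨_, q, h1, fun h => h2 (Polynomial.X_dvd_iff.2 h)⟩

/-- The number of monomials. -/
noncomputable abbrev mD (d : ℕ) : ℕ := Module.finrank ℂ (homogeneousSubmodule (Fin 4) ℂ d)

/-- A basis of the forms of degree `d`. -/
noncomputable def bas (d : ℕ) (i : Fin (mD d)) : S4 :=
  (Module.finBasis ℂ (homogeneousSubmodule (Fin 4) ℂ d) i : S4)

theorem bas_hom (d : ℕ) {R : Type} [CommRing R] [Algebra ℂ R] (y : Fin (mD d) → R) :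
    (vx 0 (bas d) y).IsHomogeneous d :=
  vx_hom (isHomogeneous_zero _ _ _)
    (fun i => (Module.finBasis ℂ (homogeneousSubmodule (Fin 4) ℂ d) i).2) y

theorem bas_ex {d : ℕ} {p : S4} (hp : p.IsHomogeneous d) : ∃ y : Fin (mD d) → ℂ,
    vx 0 (bas d) y = p := by
  have h := congrArg Subtype.val
    ((Module.finBasis ℂ (homogeneousSubmodule (Fin 4) ℂ d)).sum_repr ⟨p, hp⟩)
  refine ⟨fun i => (Module.finBasis ℂ (homogeneousSubmodule (Fin 4) ℂ d)).repr ⟨p, hp⟩ i, ?_⟩
  rw [Submodule.coe_sum] at h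
  refine Eq.trans ?_ h
  simp [vx, bas, MvPolynomial.map_id, smul_eq_C_mul]

/-- Unknown coefficients. -/
abbrev YY (k : ℕ) := (Fin 4 × Fin (mD (3 * k + 4))) ⊕ (Fin 4 × Fin (mD (3 * k + 3))) ⊕
  Fin (mD (2 * (3 * k + 2) + 1))

section
variable {k : ℕ} {R : Type} [CommRing R] [Algebra ℂ R]

noncomputable def yv (y : YY k → R) (a : Fin 4) : MvPolynomial (Fin 4) R :=
  vx 0 (bas _) fun i => y (Sum.inl (a, i))

noncomputable def yw (y : YY k → R) (a : Fin 4) : MvPolynomial (Fin 4) R :=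
  vx 0 (bas _) fun i => y (Sum.inr (Sum.inl (a, i)))

noncomputable def yq (y : YY k → R) : MvPolynomial (Fin 4) R :=
  vx 0 (bas _) fun i => y (Sum.inr (Sum.inr i))

noncomputable def EqU (ζ : Th → R) (b : R) (y : YY k → R) : MvPolynomial (Fin 4) R :=
  pol (Nf (fun s => C (ζ s)) (C b) (C 1) X) (qf (fun s => C (ζ s)) (C b) (C 1) X)
      (yv y) (yw y) (yv y) (yw y) -
    (qf (fun s => C (ζ s)) (C b) (C 1) X ^ 2 - (Nf (fun s => C (ζ s)) (C b) (C 1) X).det) * yq y

variable {S : Type} [CommRing S] [Algebra ℂ S] (φ : R →ₐ[ℂ] S)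

theorem map_yv (y : YY k → R) (a : Fin 4) :
    map (φ : R →+* S) (yv y a) = yv (fun i => φ (y i)) a := map_vx φ _ _ _

theorem map_yw (y : YY k → R) (a : Fin 4) :
    map (φ : R →+* S) (yw y a) = yw (fun i => φ (y i)) a := map_vx φ _ _ _

theorem map_yq (y : YY k → R) : map (φ : R →+* S) (yq y) = yq fun i => φ (y i) := map_vx φ _ _ _

theorem map_EqU (ζ : Th → R) (b : R) (y : YY k → R) :
    map (φ : R →+* S) (EqU ζ b y) = EqU (fun s => φ (ζ s)) (φ b) fun i => φ (y i) := by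
  simp only [EqU, map_sub, map_mul, map_pow, map_pol, map_det', map_Nf, map_qf, map_yv, map_yw,
    map_yq, map_C, map_X, RingHom.coe_coe, map_one]

end

/-- The points of the family with a solution in degree `k`. -/
def Fam (k : ℕ) (z : Th ⊕ Unit → ℂ) : Prop :=
  1 - z (Sum.inr ()) ≠ 0 ∧ ∃ y : YY k → ℂ, EqU (z ∘ Sum.inl) (z (Sum.inr ())) y = 0 ∧
    ¬ ∀ a, zr (yv y) (yw y) a = 0

theorem con_Fam (k : ℕ) : Con (Fam k) := by
  refine ((pol_C 1).sub (pol_X _)).ne.and (con_ex (((sc_zero (EqU (k := k)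
    (fun s => X (Sum.inl (Sum.inl s))) (X (Sum.inl (Sum.inr ()))) fun i => X (Sum.inr i))).congr
      fun w => ?_).and (con_fin fun a => Pol.eq
        ⟨zr (yv fun i => X (Sum.inr i)) (yw fun i => X (Sum.inr i)) a, fun w => ?_⟩).not))
  · rw [← coe_aeval_eq_eval, map_EqU]
    simp only [aeval_X]
    rfl
  · rw [map_zr, ← coe_aeval_eq_eval]
    simp only [map_yv, map_yw, aeval_X]
    rfl

/-- The inverse of `Kb b`. -/
noncomputable def kap (b : ℂ) : Matrix (Fin 3) (Fin 3) ℂ :=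
  ((160288104 : ℂ)⁻¹ * (1 - b)⁻¹) • (Kb b).adjugate

theorem kap_inv {b : ℂ} (hb : 1 - b ≠ 0) : Kb b * kap b = 1 := by
  rw [kap, Matrix.mul_smul, Matrix.mul_adjugate, Kb_det, smul_smul]
  rw [show (160288104 : ℂ)⁻¹ * (1 - b)⁻¹ * (160288104 * (1 - b)) = 1 by field_simp, one_smul]

/-- The normal form attached to a point of the family. -/
noncomputable def th (z : Th ⊕ Unit → ℂ) : Th → ℂ :=
  act (kap (z (Sum.inr ()))) (vth (z (Sum.inr ())) + z ∘ Sum.inl)

theorem iso_Fam {k : ℕ} {z : Th ⊕ Unit → ℂ} (h : Fam k z) : IsoS (th z) := by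
  obtain ⟨hb, y, h1, h2⟩ := h
  have := iso_of_family (z ∘ Sum.inl) (z (Sum.inr ())) 1 _ (kap_inv hb) (3 * k + 3) (yv y) (yw y)
    (fun a => bas_hom _ _) (fun a => bas_hom _ _) ⟨_, sub_eq_zero.1 h1⟩ fun h => h2 (congrFun h)
  rwa [one_smul] at this

theorem sc_act {ι : Type} {u : (ι → ℂ) → ℂ} (hu : Pol u) {κ : (ι → ℂ) → Matrix (Fin 3) (Fin 3) ℂ}
    {θ : (ι → ℂ) → Th → ℂ} (h1 : ∀ i j, RatPol u fun x => κ x i j)
    (h2 : ∀ s, RatPol u fun x => θ x s) (s : Th) : RatPol u fun x => act (κ x) (θ x) s := by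
  have := sc_ev hu (φ := fun x => Sum.elim (fun p : Fin 3 × Fin 3 => κ x p.1 p.2) (θ x))
    (fun k => by
      rcases k with k | k
      exacts [h1 _ _, h2 _])
    (act (Matrix.of fun i j => X (Sum.inl (i, j))) (fun s => X (Sum.inr s)) s)
  refine (congrArg (RatPol u) (funext fun x => ?_)).mp this
  rw [map_act]
  congr 1
  · ext i j
    simp
  · funext s
    simp

theorem rat_th (s : Th) : RatPol (fun z : Th ⊕ Unit → ℂ => 1 - z (Sum.inr ())) fun z => th z s := by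
  have hu : Pol fun z : Th ⊕ Unit → ℂ => 1 - z (Sum.inr ()) := (pol_C 1).sub (pol_X _)
  refine sc_act hu (fun i j => ?_) (fun s => Pol.rat (Pol.add
    ⟨vth (X (Sum.inr ())) s, fun z => by rw [map_vth, eval_X]⟩ (pol_X _))) s
  refine ((pol_C _).rat.mul (sc_inv (pol_C 1) fun _ => (mul_one _).symm)).mul
    (Pol.rat ⟨(Kb (X (Sum.inr ()))).adjugate i j, fun z => ?_⟩)
  rw [← Matrix.map_apply (f := eval z), map_adj', map_Kb, eval_X]

/-- A polynomial on the surface with the generic direction. -/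
noncomputable def gS (P : PR (Th ⊕ Unit)) : Polynomial (Polynomial (PR Th)) :=
  eval₂ (Polynomial.C.comp (Polynomial.C.comp C))
    (Sum.elim (fun s => Polynomial.X * Polynomial.C (Polynomial.C (X s)))
      fun _ => Polynomial.C Polynomial.X) P

/-- A polynomial on the line with the generic direction. -/
noncomputable def uS (P : PR (Th ⊕ Unit)) (b : ℂ) : Polynomial (PR Th) :=
  eval₂ (Polynomial.C.comp C)
    (Sum.elim (fun s => Polynomial.X * Polynomial.C (X s)) fun _ => Polynomial.C (C b)) P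

theorem ev_gS (P : PR (Th ⊕ Unit)) (η : Th → ℂ) (b e : ℂ) :
    ((gS P).map (Polynomial.mapRingHom (eval η))).evalEval b e =
      eval (Sum.elim (e • η) fun _ => b) P := by
  have := eval₂_comp_left (S₁ := Polynomial (Polynomial (PR Th))) ((Polynomial.evalEvalRingHom b e).comp
    (Polynomial.mapRingHom (Polynomial.mapRingHom (eval η : PR Th →+* ℂ))))
    (Polynomial.C.comp (Polynomial.C.comp C))
    (Sum.elim (fun s => Polynomial.X * Polynomial.C (Polynomial.C (X s)))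
      fun _ : Unit => Polynomial.C Polynomial.X) P
  refine this.trans ?_
  rw [← eval₂_id]
  congr 1
  · ext a
    simp
  · funext i
    rcases i with i | i
    · simpa using mul_comm (η i) e
    · simp

theorem ev_uS (P : PR (Th ⊕ Unit)) (η : Th → ℂ) (b e : ℂ) :
    ((uS P b).map (eval η)).eval e = eval (Sum.elim (e • η) fun _ => b) P := by
  have := eval₂_comp_left ((Polynomial.evalRingHom e).comp
    (Polynomial.mapRingHom (eval η : PR Th →+* ℂ))) (Polynomial.C.comp C)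
    (Sum.elim (fun s => Polynomial.X * Polynomial.C (X s))
      fun _ : Unit => Polynomial.C (C b)) P
  refine this.trans ?_
  rw [← eval₂_id]
  congr 1
  · ext a
    simp
  · funext i
    rcases i with i | i
    · simpa using mul_comm (η i) e
    · simp

theorem sc_split (z : Th ⊕ Unit → ℂ) :
    Sum.elim ((1 : ℂ) • (z ∘ Sum.inl)) (fun _ => z (Sum.inr ())) = z := by
  funext i
  rcases i with i | i <;> simp

theorem dense_Fam {G : PR (Th ⊕ Unit)} (hG : G ≠ 0) : ∃ k : ℕ, ∀ f' : PR (Th ⊕ Unit), f' ≠ 0 →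
    ∃ y, eval y f' ≠ 0 ∧ ∃ z, (Fam k z ∧ eval z G ≠ 0) ∧ ∀ i, i ≠ Sum.inr () → z i = y i := by
  have g0 : gS G ≠ 0 := fun h => by
    obtain ⟨z, hz⟩ := sc_ex hG
    rw [← sc_split z, ← ev_gS, h, Polynomial.map_zero, Polynomial.evalEval_zero] at hz
    exact hz rfl
  obtain ⟨r, g', h1, h2⟩ := sc_fac _ g0
  obtain ⟨η1, hη1⟩ := sc_ex (Polynomial.leadingCoeff_ne_zero.2 h2)
  obtain ⟨k, b, hk, hb, hgb⟩ := exists_special ((g'.coeff 0).map (eval η1)) fun h => hη1 (by
    rw [Polynomial.leadingCoeff, ← Polynomial.coeff_map, h, Polynomial.coeff_zero])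
  obtain ⟨k, rfl⟩ : ∃ k', k = k' + 1 := ⟨k - 1, by omega⟩
  have ev : ∀ η : Th → ℂ, eval η ((g'.coeff 0).eval (C b)) = ((g'.coeff 0).map (eval η)).eval b :=
    fun η => by rw [← Polynomial.eval₂_at_apply, ← Polynomial.eval_map, eval_C]
  have hn : (g'.coeff 0).eval (C b) ≠ 0 := fun h => hgb (by rw [← ev, h, map_zero])
  refine ⟨k, fun f' hf' => ?_⟩
  obtain ⟨z1, hz1⟩ := sc_ex hf'
  have u0 : uS f' (z1 (Sum.inr ())) ≠ 0 := fun h => by
    rw [← sc_split z1, ← ev_uS, h, Polynomial.map_zero, Polynomial.eval_zero] at hz1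
    exact hz1 rfl
  obtain ⟨j, u', k1, k2⟩ := sc_fac _ u0
  obtain ⟨η, hη⟩ := sc_ex (mul_ne_zero hn k2)
  obtain ⟨b', e, v, w, Q, he, hb', x2, hv, hw, hQ, hE, hz⟩ := sc_family k b hb η
    (g'.map (Polynomial.mapRingHom (eval η)) * (u'.map (eval η)).map Polynomial.C) (by
      rw [Polynomial.mul_coeff_zero, Polynomial.coeff_map, Polynomial.coeff_map,
        Polynomial.coeff_map, Polynomial.eval_mul, Polynomial.eval_C, Polynomial.coe_mapRingHom]
      rwa [map_mul, ev] at hη)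
  change Polynomial.evalEval b' e _ ≠ 0 at x2
  rw [Polynomial.evalEval_mul, Polynomial.evalEval_map_C] at x2
  choose y1 hy1 using fun a => bas_ex (hv a)
  choose y2 hy2 using fun a => bas_ex (hw a)
  obtain ⟨y3, hy3⟩ := bas_ex hQ
  refine ⟨Sum.elim (e • η) fun _ => z1 (Sum.inr ()), ?_, Sum.elim (e • η) fun _ => b',
    ⟨⟨sub_ne_zero.2 hb'.symm, Sum.elim (fun p => y1 p.1 p.2) (Sum.elim (fun p => y2 p.1 p.2) y3),
      ?_⟩, ?_⟩, ?_⟩
  · rw [← ev_uS, k1, Polynomial.map_mul, Polynomial.map_pow, Polynomial.map_X, Polynomial.eval_mul,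
      Polynomial.eval_pow, Polynomial.eval_X]
    exact mul_ne_zero (pow_ne_zero _ he) (right_ne_zero_of_mul x2)
  · have e1 : yv (k := k) (Sum.elim (fun p => y1 p.1 p.2) (Sum.elim (fun p => y2 p.1 p.2) y3)) = v :=
      funext hy1
    have e2 : yw (k := k) (Sum.elim (fun p => y1 p.1 p.2) (Sum.elim (fun p => y2 p.1 p.2) y3)) = w :=
      funext hy2
    have e3 : yq (k := k) (Sum.elim (fun p => y1 p.1 p.2) (Sum.elim (fun p => y2 p.1 p.2) y3)) = Q :=
      hy3
    rw [EqU, e1, e2, e3, sub_eq_zero]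
    refine ⟨?_, fun h => hz (funext h)⟩
    rw [Nf, qf, vth_C] at hE ⊢
    rw [one_smul]
    exact hE
  · rw [← ev_gS, h1, Polynomial.map_mul, Polynomial.map_pow, Polynomial.map_X,
      Polynomial.evalEval_mul, Polynomial.evalEval_pow, Polynomial.evalEval_X]
    exact mul_ne_zero (pow_ne_zero _ he) (left_ne_zero_of_mul x2)
  · rintro (i | i) hi
    · rfl
    · exact absurd rfl hi

theorem th_back {b : ℂ} (hb : 1 - b ≠ 0) (θ : Th → ℂ) :
    th (Sum.elim (act (Kb b) θ - vth b) fun _ => b) = θ := by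
  change act (kap b) (vth b + (act (Kb b) θ - vth b)) = θ
  rw [add_sub_cancel, act_act, kap_inv hb, act_one]

theorem th_div (F : PR Th) (hF : F ≠ 0) : ∃ F0 g0 : PR Th,
    (∃ θ, eval θ F0 = 0 ∧ eval θ g0 ≠ 0) ∧
      ∀ θ, eval θ F0 = 0 → eval θ g0 ≠ 0 → eval θ F ≠ 0 ∧ IsoS θ := by
  obtain ⟨G, N, hG⟩ := sc_ev ((pol_C 1).sub (pol_X _)) rat_th F
  have G0 : G ≠ 0 := fun h => by
    obtain ⟨θ, hθ⟩ := sc_ex hF
    have k : (1 : ℂ) - 0 ≠ 0 := by simp
    have := hG (Sum.elim (act (Kb 0) θ - vth 0) fun _ => 0) k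
    beta_reduce at this
    rw [th_back k, h, map_zero] at this
    exact mul_ne_zero hθ (pow_ne_zero _ k) this
  obtain ⟨k, hk⟩ := dense_Fam G0
  obtain ⟨F1, g1, h1, h2, h3⟩ := divisor ((con_Fam k).and
    (Pol.ne (f := fun z => eval z G) ⟨G, fun _ => rfl⟩)) (Sum.inr ()) hk
  obtain ⟨z, z1, z2⟩ := sc_pt h1 h2
  have hb := (h3 z z1 z2).1.1
  have hφ : ∀ i, Pol fun θ : Th → ℂ => (Sum.elim (act (Kb (z (Sum.inr ()))) θ -
      vth (z (Sum.inr ()))) fun _ : Unit => z (Sum.inr ())) i := by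
    rintro (s | s)
    · refine Pol.sub ⟨act ((Kb (z (Sum.inr ()))).map C) X s, fun θ => ?_⟩ (pol_C _)
      rw [map_act, Matrix.map_map]
      simp only [Function.comp_def, eval_C, eval_X]
      rfl
    · exact pol_C _
  obtain ⟨F0, hF0⟩ := sc_polev hφ F1
  obtain ⟨g0, hg0⟩ := sc_polev hφ g1
  refine ⟨F0, g0, ⟨th z, ?_⟩, fun θ k1 k2 => ?_⟩
  · have e : (Sum.elim (act (Kb (z (Sum.inr ()))) (th z) - vth (z (Sum.inr ())))
        fun _ : Unit => z (Sum.inr ())) = z := by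
      rw [th, act_act, mul_eq_one_comm.1 (kap_inv hb), act_one, add_sub_cancel_left]
      funext i
      rcases i with i | i <;> rfl
    rw [← hF0, ← hg0]
    beta_reduce
    rw [e]
    exact ⟨z1, z2⟩
  · rw [← hF0] at k1
    rw [← hg0] at k2
    obtain ⟨a1, a2⟩ := h3 _ k1 k2
    have a3 := iso_Fam a1
    have a4 := hG _ a1.1
    beta_reduce at a4
    rw [th_back hb] at a3 a4
    exact ⟨left_ne_zero_of_mul (a4 ▸ a2), a3⟩

end Pool.Agent.GMDiv
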